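import Pool.Agent.H529R2.MQ.Defs

namespace Pool.Agent.H529R2.MQ

namespace CPL

variable {n : ℕ} {A B D x y z : List Bool}

theorem ext_getD (hx : x.length = n) (hy : y.length = n)
    (h : ∀ i, x.getD i false = y.getD i false) : x = y := by
  apply List.ext_getElem (hx.trans hy.symm)
  intro i h1 h2
  have := h i
  rwa [List.getD_eq_getElem _ _ h1, List.getD_eq_getElem _ _ h2] at this

theorem getD_ge (hx : x.length = n) {i : ℕ} (hi : n ≤ i) : x.getD i false = false :=
  List.getD_eq_default _ _ (by omega)

theorem mx_len (hA : A.length = n) (hx : x.length = n) (hz : z.length = n) :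
    (mx A x z).length = n := by
  simp [mx, hA, hx, hz]

theorem mx_get (hA : A.length = n) (hx : x.length = n) (hz : z.length = n) (i : ℕ) :
    (mx A x z).getD i false = if A.getD i false = true then x.getD i false else z.getD i false := by
  rcases lt_or_ge i n with hi | hi
  · rw [List.getD_eq_getElem _ _ (by rw [mx_len hA hx hz]; exact hi),
      List.getD_eq_getElem _ _ (by omega), List.getD_eq_getElem _ _ (by omega),
      List.getD_eq_getElem _ _ (by omega)]
    simp [mx]
  · rw [getD_ge (mx_len hA hx hz) hi, getD_ge hA hi, getD_ge hx hi, getD_ge hz hi]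
    simp

theorem un_len (hA : A.length = n) (hB : B.length = n) : (un A B).length = n := by
  simp [un, hA, hB]

theorem un_get (hA : A.length = n) (hB : B.length = n) (i : ℕ) :
    (un A B).getD i false = (A.getD i false || B.getD i false) := by
  rcases lt_or_ge i n with hi | hi
  · rw [List.getD_eq_getElem _ _ (by rw [un_len hA hB]; exact hi),
      List.getD_eq_getElem _ _ (by omega), List.getD_eq_getElem _ _ (by omega)]
    simp [un]
  · rw [getD_ge (un_len hA hB) hi, getD_ge hA hi, getD_ge hB hi]
    simp

theorem dj_iff (hA : A.length = n) (hB : B.length = n) :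
    dj A B = true ↔ ∀ i, A.getD i false = true → B.getD i false = false := by
  unfold dj
  rw [List.all_eq_true]
  constructor
  · intro h i hAi
    rcases lt_or_ge i n with hi | hi
    · have h1 := h ((A.zip B)[i]'(by simp [hA, hB, hi])) (List.getElem_mem _)
      rw [List.getD_eq_getElem _ _ (by omega)] at hAi ⊢
      simp [hAi] at h1
      exact h1
    · exact getD_ge hB hi
  · intro h q hq
    obtain ⟨i, hi, rfl⟩ := List.getElem_of_mem hq
    have hi' : i < n := by simp [hA, hB] at hi; exact hi
    have h1 := h i
    rw [List.getD_eq_getElem _ _ (by omega), List.getD_eq_getElem _ _ (by omega)] at h1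
    simp only [List.getElem_zip]
    cases hAi : A[i] with
    | false => simp
    | true => simp [h1 hAi]

/-- slices of `G` -/
def Gd (n : ℕ) (G : List Bool → Bool) (A : List Bool) (g : List Bool → Bool) : Prop :=
  ∀ z : List Bool, z.length = n →
    (∀ x : List Bool, x.length = n → G (mx A x z) = g (mx A x z)) ∨
    (∀ x : List Bool, x.length = n → G (mx A x z) = G z)

/-- constant slices, predicted from the skeleton -/
def ty : Sk → List Bool → Option Bool
  | Sk.v _, _ => none
  | Sk.d i s, z => some (xor (z.getD i false) s)
  | Sk.nd o a b, z =>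
    if ty a z = some (!o) ∨ ty b z = some (!o) then some (!o)
    else if ty a z = some o ∧ ty b z = some o then some o else none

theorem ty_nd (o : Bool) (a b : Sk) (z : List Bool) : ty (Sk.nd o a b) z =
    if ty a z = some (!o) ∨ ty b z = some (!o) then some (!o)
    else if ty a z = some o ∧ ty b z = some o then some o else none := rfl

/-- the gate -/
def gt (o : Bool) (g h : List Bool → Bool) (x : List Bool) : Bool :=
  if o = true then g x && h x else g x || h x

theorem gt_ctrl_iff {o : Bool} {g h : List Bool → Bool} {x : List Bool} :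
    gt o g h x = !o ↔ g x = !o ∨ h x = !o := by
  unfold gt
  cases o <;> cases g x <;> cases h x <;> simp

theorem gt_eq_iff {o : Bool} {g h : List Bool → Bool} {x : List Bool} :
    gt o g h x = o ↔ g x = o ∧ h x = o := by
  unfold gt
  cases o <;> cases g x <;> cases h x <;> simp

structure Vd (n : ℕ) (D : List Bool) (t : Sk) (A : List Bool) (g : List Bool → Bool) : Prop where
  len : A.length = n
  dis : ∀ i, A.getD i false = true → D.getD i false = false
  dep : ∀ x y : List Bool, x.length = n → y.length = n →
    (∀ i, A.getD i false = true ∨ D.getD i false = true → x.getD i false = y.getD i false) →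
    g x = g y
  typ : ∀ z : List Bool, z.length = n → ∀ c : Bool,
    (∀ x : List Bool, x.length = n → g (mx A x z) = c) ↔ ty t z = some c

theorem mx_self (hA : A.length = n) (hz : z.length = n) : mx A z z = z :=
  ext_getD (mx_len hA hz hz) hz fun i => by rw [mx_get hA hz hz]; simp

theorem mx_mx_self (hA : A.length = n) (hx : x.length = n) (hz : z.length = n)
    (hy : y.length = n) : mx A (mx A x y) z = mx A x z :=
  ext_getD (mx_len hA (mx_len hA hx hy) hz) (mx_len hA hx hz) fun i => by
    rw [mx_get hA (mx_len hA hx hy) hz, mx_get hA hx hy, mx_get hA hx hz]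
    split_ifs <;> rfl

theorem mx_mx_other (hA : A.length = n) (hB : B.length = n)
    (hd : ∀ i, A.getD i false = true → B.getD i false = false)
    (hx : x.length = n) (hz : z.length = n) (hy : y.length = n) :
    mx B (mx A x y) z = mx B y z :=
  ext_getD (mx_len hB (mx_len hA hx hy) hz) (mx_len hB hy hz) fun i => by
    rw [mx_get hB (mx_len hA hx hy) hz, mx_get hA hx hy, mx_get hB hy hz]
    by_cases h1 : A.getD i false = true
    · rw [hd i h1]; simp
    · rw [if_neg h1]

theorem mx_un (hA : A.length = n) (hB : B.length = n)
    (hx : x.length = n) (hz : z.length = n) (hy : y.length = n) :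
    mx A x (mx B y z) = mx (un A B) (mx A x y) z :=
  ext_getD (mx_len hA hx (mx_len hB hy hz)) (mx_len (un_len hA hB) (mx_len hA hx hy) hz)
    fun i => by
      rw [mx_get hA hx (mx_len hB hy hz), mx_get hB hy hz,
        mx_get (un_len hA hB) (mx_len hA hx hy) hz, mx_get hA hx hy, un_get hA hB]
      cases A.getD i false <;> cases B.getD i false <;> simp

theorem un_comm' (hA : A.length = n) (hB : B.length = n) : un A B = un B A :=
  ext_getD (un_len hA hB) (un_len hB hA) fun i => by
    rw [un_get hA hB, un_get hB hA, Bool.or_comm]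

section comb

variable {t u : Sk} {g h g' h' G : List Bool → Bool} {o : Bool}

theorem left_un (hg : Vd n D t A g) (hB : B.length = n)
    (hBD : ∀ i, B.getD i false = true → D.getD i false = false)
    (hx : x.length = n) (hz : z.length = n) : g (mx (un A B) x z) = g (mx A x z) := by
  apply hg.dep _ _ (mx_len (un_len hg.len hB) hx hz) (mx_len hg.len hx hz)
  intro i hi
  rw [mx_get (un_len hg.len hB) hx hz, mx_get hg.len hx hz, un_get hg.len hB]
  rcases hi with hi | hi
  · rw [hi]; simp
  · have h1 : A.getD i false = false := by
      by_contra h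
      rw [hg.dis i (by simpa using h)] at hi
      exact absurd hi (by simp)
    have h2 : B.getD i false = false := by
      by_contra h
      rw [hBD i (by simpa using h)] at hi
      exact absurd hi (by simp)
    rw [h1, h2]; simp

theorem right_un (hh : Vd n D u B h) (hA : A.length = n)
    (hAD : ∀ i, A.getD i false = true → D.getD i false = false)
    (hx : x.length = n) (hz : z.length = n) : h (mx (un A B) x z) = h (mx B x z) := by
  rw [un_comm' hA hh.len]
  exact left_un hh hA hAD hx hz

theorem Vd.comb (hg : Vd n D t A g) (hh : Vd n D u B h)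
    (hd : ∀ i, A.getD i false = true → B.getD i false = false) (o : Bool) :
    Vd n D (Sk.nd o t u) (un A B) (gt o g h) where
  len := un_len hg.len hh.len
  dis := fun i hi => by
    rw [un_get hg.len hh.len, Bool.or_eq_true] at hi
    exact hi.elim (hg.dis i) (hh.dis i)
  dep := fun x y hx hy hxy => by
    have h1 : g x = g y := hg.dep x y hx hy fun i hi => hxy i (by
      rw [un_get hg.len hh.len, Bool.or_eq_true]
      exact hi.imp_left Or.inl)
    have h2 : h x = h y := hh.dep x y hx hy fun i hi => hxy i (by
      rw [un_get hg.len hh.len, Bool.or_eq_true]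
      exact hi.imp_left Or.inr)
    unfold gt
    rw [h1, h2]
  typ := fun z hz c => by
    have hval : ∀ x : List Bool, x.length = n → gt o g h (mx (un A B) x z) =
        (if o = true then g (mx A x z) && h (mx B x z) else g (mx A x z) || h (mx B x z)) := by
      intro x hx
      unfold gt
      rw [left_un hg hh.len hh.dis hx hz, right_un hh hg.len hg.dis hx hz]
    have hind : ∀ x y : List Bool, x.length = n → y.length = n →
        gt o g h (mx (un A B) (mx A x y) z) =
        (if o = true then g (mx A x z) && h (mx B y z) else g (mx A x z) || h (mx B y z)) := by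
      intro x y hx hy
      rw [hval _ (mx_len hg.len hx hy), mx_mx_self hg.len hx hz hy,
        mx_mx_other hg.len hh.len hd hx hz hy]
    have hctrl : (∀ x : List Bool, x.length = n → gt o g h (mx (un A B) x z) = !o) ↔
        (ty t z = some (!o) ∨ ty u z = some (!o)) := by
      rw [← hg.typ z hz, ← hh.typ z hz]
      constructor
      · intro hc
        by_contra hcon
        push Not at hcon
        obtain ⟨⟨x, hx, hx1⟩, ⟨y, hy, hy1⟩⟩ := hcon
        have h1 := hc _ (mx_len hg.len hx hy)
        rw [hind x y hx hy] at h1
        revert h1 hx1 hy1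
        cases o <;> cases g (mx A x z) <;> cases h (mx B y z) <;> simp
      · rintro (hc | hc) x hx
        · rw [hval x hx, hc x hx]; cases o <;> simp
        · rw [hval x hx, hc x hx]; cases o <;> simp
    have heq : (∀ x : List Bool, x.length = n → gt o g h (mx (un A B) x z) = o) ↔
        (ty t z = some o ∧ ty u z = some o) := by
      rw [← hg.typ z hz, ← hh.typ z hz]
      constructor
      · intro hc
        constructor
        · intro x hx
          have h1 := hc _ hx
          rw [hval x hx] at h1
          revert h1
          cases o <;> cases g (mx A x z) <;> cases h (mx B x z) <;> simp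
        · intro x hx
          have h1 := hc _ hx
          rw [hval x hx] at h1
          revert h1
          cases o <;> cases g (mx A x z) <;> cases h (mx B x z) <;> simp
      · rintro ⟨h1, h2⟩ x hx
        rw [hval x hx, h1 x hx, h2 x hx]; cases o <;> simp
    rcases eq_or_ne c o with hc | hc
    · subst hc
      rw [heq, ty_nd]
      constructor
      · rintro ⟨h1, h2⟩
        rw [h1, h2]
        simp
      · intro h1
        split_ifs at h1 with h2 h3
        · cases c <;> simp at h1
        · exact h3
    · have hc' : c = !o := by cases c <;> cases o <;> simp_all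
      subst hc'
      rw [hctrl, ty_nd]
      constructor
      · intro h1
        rw [if_pos h1]
      · intro h1
        split_ifs at h1 with h2 h3
        · exact h2
        · cases o <;> simp at h1

theorem Gd.symm_un (hA : A.length = n) (hB : B.length = n) (hG : Gd n G (un A B) (gt o g h)) :
    Gd n G (un B A) (gt o h g) := by
  rw [un_comm' hB hA]
  intro z hz
  rcases hG z hz with h1 | h1
  · left
    intro x hx
    rw [h1 x hx]
    unfold gt
    rw [Bool.and_comm, Bool.or_comm]
  · exact Or.inr h1

/-- inheritance -/
theorem Gd.left (hg : Vd n D t A g) (hh : Vd n D u B h)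
    (hd : ∀ i, A.getD i false = true → B.getD i false = false)
    (hG : Gd n G (un A B) (gt o g h)) : Gd n G A g := by
  intro z hz
  have hmx : ∀ x : List Bool, x.length = n → mx A x z = mx (un A B) (mx A x z) z := by
    intro x hx
    have := mx_un (A := A) (B := B) hg.len hh.len hx hz hz
    rw [mx_self hh.len hz] at this
    exact this
  rcases hG z hz with h1 | h1
  · have hv : ∀ x : List Bool, x.length = n → G (mx A x z) =
        (if o = true then g (mx A x z) && h z else g (mx A x z) || h z) := by
      intro x hx
      rw [hmx x hx, h1 _ (mx_len hg.len hx hz)]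
      unfold gt
      rw [left_un hg hh.len hh.dis (mx_len hg.len hx hz) hz,
        right_un hh hg.len hg.dis (mx_len hg.len hx hz) hz, mx_mx_self hg.len hx hz hz,
        mx_mx_other hg.len hh.len hd hx hz hz, mx_self hh.len hz]
    rcases eq_or_ne (h z) o with h2 | h2
    · left
      intro x hx
      rw [hv x hx, h2]
      cases o <;> simp
    · right
      have h3 : h z = !o := by
        revert h2
        cases h z <;> cases o <;> simp
      have h4 : ∀ x : List Bool, x.length = n → G (mx A x z) = !o := by
        intro x hx
        rw [hv x hx, h3]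
        cases o <;> simp
      intro x hx
      rw [h4 x hx]
      have := h4 z hz
      rw [mx_self hg.len hz] at this
      exact this.symm
  · right
    intro x hx
    rw [hmx x hx]
    exact h1 _ (mx_len hg.len hx hz)

theorem Gd.right (hg : Vd n D t A g) (hh : Vd n D u B h)
    (hd : ∀ i, A.getD i false = true → B.getD i false = false)
    (hG : Gd n G (un A B) (gt o g h)) : Gd n G B h :=
  Gd.left hh hg (fun i hi => by
    by_contra hc
    rw [hd i (by simpa using hc)] at hi
    exact absurd hi (by simp)) (Gd.symm_un hg.len hh.len hG)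

/-- the key step of the exchange lemma -/
theorem slice_eq (hg : Vd n D t A g) (hh : Vd n D u B h) (hg' : Vd n D t A g')
    (hd : ∀ i, A.getD i false = true → B.getD i false = false)
    (hG' : Gd n G A g') (hz : z.length = n)
    (hs : ∀ x : List Bool, x.length = n → G (mx (un A B) x z) = gt o g h (mx (un A B) x z))
    (hA : ∃ x : List Bool, x.length = n ∧ g (mx A x z) = o)
    (hB : ∃ x : List Bool, x.length = n ∧ h (mx B x z) = o) :
    ∀ x : List Bool, x.length = n → g' (mx A x z) = g (mx A x z) := by
  obtain ⟨y, hy, hy1⟩ := hB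
  by_cases hc : ∀ x : List Bool, x.length = n → g (mx A x z) = o
  · have h1 := (hg'.typ z hz o).2 ((hg.typ z hz o).1 hc)
    intro x hx
    rw [h1 x hx, hc x hx]
  · push Not at hc
    obtain ⟨x0, hx0, hx1⟩ := hc
    obtain ⟨x2, hx2, hx3⟩ := hA
    have hzl : (mx B y z).length = n := mx_len hh.len hy hz
    have hv : ∀ x : List Bool, x.length = n → G (mx A x (mx B y z)) = g (mx A x z) := by
      intro x hx
      rw [mx_un hg.len hh.len hx hz hy, hs _ (mx_len hg.len hx hy)]
      unfold gt
      rw [left_un hg hh.len hh.dis (mx_len hg.len hx hy) hz,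
        right_un hh hg.len hg.dis (mx_len hg.len hx hy) hz, mx_mx_self hg.len hx hz hy,
        mx_mx_other hg.len hh.len hd hx hz hy, hy1]
      cases o <;> simp
    rcases hG' _ hzl with h1 | h1
    · intro x hx
      rw [← hv x hx, h1 x hx]
      apply hg'.dep _ _ (mx_len hg.len hx hz) (mx_len hg.len hx hzl)
      intro i hi
      rw [mx_get hg.len hx hz, mx_get hg.len hx hzl, mx_get hh.len hy hz]
      by_cases hAi : A.getD i false = true
      · rw [if_pos hAi, if_pos hAi]
      · have hDi := hi.resolve_left hAi
        have hBi : B.getD i false = false := by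
          by_contra hb
          rw [hh.dis i (by simpa using hb)] at hDi
          exact absurd hDi (by simp)
        rw [if_neg hAi, if_neg hAi, if_neg (by rw [hBi]; simp)]
    · exfalso
      have e1 := h1 x0 hx0
      have e2 := h1 x2 hx2
      rw [hv x0 hx0] at e1
      rw [hv x2 hx2] at e2
      rw [hx3] at e2
      rw [← e2] at e1
      exact hx1 e1

/-- the exchange lemma -/
theorem exchange (hg : Vd n D t A g) (hh : Vd n D u B h) (hg' : Vd n D t A g')
    (hh' : Vd n D u B h') (hd : ∀ i, A.getD i false = true → B.getD i false = false)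
    (hG1 : Gd n G A g') (hG2 : Gd n G B h') (hG : Gd n G (un A B) (gt o g h)) :
    Gd n G (un A B) (gt o g' h') := by
  intro z hz
  rcases hG z hz with hs | hs
  swap
  · exact Or.inr hs
  by_cases hconst : ∀ x : List Bool, x.length = n → gt o g h (mx (un A B) x z) = !o
  · right
    intro x hx
    rw [hs x hx, hconst x hx]
    have := hs z hz
    rw [hconst z hz, mx_self (un_len hg.len hh.len) hz] at this
    exact this.symm
  · push Not at hconst
    obtain ⟨x0, hx0, hx1⟩ := hconst
    have h0 : gt o g h (mx (un A B) x0 z) = o := by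
      revert hx1
      cases o <;> cases gt _ g h (mx (un A B) x0 z) <;> simp
    rw [gt_eq_iff, left_un hg hh.len hh.dis hx0 hz, right_un hh hg.len hg.dis hx0 hz] at h0
    have hd' : ∀ i, B.getD i false = true → A.getD i false = false := fun i hi => by
      by_contra hc
      rw [hd i (by simpa using hc)] at hi
      exact absurd hi (by simp)
    have e1 := slice_eq hg hh hg' hd hG1 hz hs ⟨x0, hx0, h0.1⟩ ⟨x0, hx0, h0.2⟩
    have e2 := slice_eq (o := o) (G := G) hh hg hh' hd' hG2 hz (by
      intro x hx
      rw [un_comm' hh.len hg.len, hs x hx]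
      unfold gt
      rw [Bool.and_comm, Bool.or_comm]) ⟨x0, hx0, h0.2⟩ ⟨x0, hx0, h0.1⟩
    left
    intro x hx
    rw [hs x hx]
    unfold gt
    rw [left_un hg hh.len hh.dis hx hz, right_un hh hg.len hg.dis hx hz,
      left_un hg' hh.len hh.dis hx hz, right_un hh' hg.len hg.dis hx hz, e1 x hx, e2 x hx]

end comb

/-! ### the tables -/

theorem good_iff (hASG : S_ASG) {G g : List Bool → Bool} (hA : A.length = n) :
    good (asg n) ((asg n).map G) A ((asg n).map g) = true ↔ Gd n G A g := by
  obtain ⟨h1, -, -, -, h5⟩ := hASG
  unfold good Gd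
  rw [List.all_eq_true]
  constructor
  · intro h z hz
    have := h z ((h1 n z).2 hz)
    rw [Bool.or_eq_true, List.all_eq_true, List.all_eq_true] at this
    rcases this with h2 | h2
    · left
      intro x hx
      have := h2 x ((h1 n x).2 hx)
      rw [decide_eq_true_eq, h5 _ _ _ (mx_len hA hx hz), h5 _ _ _ (mx_len hA hx hz)] at this
      exact this
    · right
      intro x hx
      have := h2 x ((h1 n x).2 hx)
      rw [decide_eq_true_eq, h5 _ _ _ (mx_len hA hx hz), h5 _ _ _ hz] at this
      exact this
  · intro h z hz
    rw [h1] at hz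
    rw [Bool.or_eq_true, List.all_eq_true, List.all_eq_true]
    rcases h z hz with h2 | h2
    · left
      intro x hx
      rw [h1] at hx
      rw [decide_eq_true_eq, h5 _ _ _ (mx_len hA hx hz), h5 _ _ _ (mx_len hA hx hz)]
      exact h2 x hx
    · right
      intro x hx
      rw [h1] at hx
      rw [decide_eq_true_eq, h5 _ _ _ (mx_len hA hx hz), h5 _ _ _ hz]
      exact h2 x hx

theorem gateT_map (hASG : S_ASG) (o : Bool) (g h : List Bool → Bool) :
    gateT (asg n) o ((asg n).map g) ((asg n).map h) = (asg n).map (gt o g h) := by
  obtain ⟨h1, -, -, -, h5⟩ := hASG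
  unfold gateT
  apply List.map_congr_left
  intro x hx
  rw [h1] at hx
  rw [h5 _ _ _ hx, h5 _ _ _ hx]
  rfl

theorem sg_len (n i : ℕ) : (sg n i).length = n := by simp [sg]

theorem sg_get {n i : ℕ} (hi : i < n) (j : ℕ) : (sg n i).getD j false = decide (j = i) := by
  rcases lt_or_ge j n with hj | hj
  · rw [List.getD_eq_getElem _ _ (by rw [sg_len]; exact hj)]
    simp [sg]
  · rw [getD_ge (sg_len n i) hj]
    have : j ≠ i := by omega
    simp [this]

theorem vd_v (hD : D.length = n) {i : ℕ} (hi : i < n) (hDi : D.getD i false = false) (s : Bool) :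
    Vd n D (Sk.v s) (sg n i) (fun x => xor (x.getD i false) s) where
  len := sg_len n i
  dis := fun j hj => by
    rw [sg_get hi, decide_eq_true_eq] at hj
    rw [hj]; exact hDi
  dep := fun x y hx hy h => by
    have := h i (Or.inl (by rw [sg_get hi]; simp))
    simp only [this]
  typ := fun z hz c => by
    constructor
    · intro h
      have h1 := h (List.replicate n (xor (!c) s)) (by simp)
      rw [mx_get (sg_len n i) (by simp) hz, sg_get hi, if_pos (by simp),
        List.getD_eq_getElem _ _ (by simpa using hi), List.getElem_replicate] at h1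
      exfalso
      revert h1
      cases c <;> cases s <;> simp
    · intro h
      exact absurd h (by simp [ty])

theorem zero_get (D : List Bool) (i : ℕ) : (D.map fun _ => false).getD i false = false := by
  rcases lt_or_ge i D.length with hj | hj
  · rw [List.getD_eq_getElem _ _ (by simpa using hj)]
    simp
  · exact List.getD_eq_default _ _ (by simpa using hj)

theorem vd_d (hD : D.length = n) {i : ℕ} (hDi : D.getD i false = true) (s : Bool) :
    Vd n D (Sk.d i s) (D.map fun _ => false) (fun x => xor (x.getD i false) s) where
  len := by simpa using hD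
  dis := fun j hj => by
    rw [zero_get] at hj
    exact absurd hj (by simp)
  dep := fun x y hx hy h => by
    have := h i (Or.inr hDi)
    simp only [this]
  typ := fun z hz c => by
    have h1 : ∀ x : List Bool, x.length = n →
        xor ((mx (D.map fun _ => false) x z).getD i false) s = xor (z.getD i false) s := by
      intro x hx
      rw [mx_get (by simpa using hD) hx hz, zero_get, if_neg (by simp)]
    unfold ty
    constructor
    · intro h
      rw [← h1 z hz, h z hz]
    · intro h x hx
      rw [h1 x hx]
      simpa using h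

theorem gd_zero (hD : D.length = n) (G g : List Bool → Bool) :
    Gd n G (D.map fun _ => false) g := by
  intro z hz
  right
  intro x hx
  congr 1
  apply ext_getD (mx_len (by simpa using hD) hx hz) hz
  intro i
  rw [mx_get (by simpa using hD) hx hz, zero_get, if_neg (by simp)]

theorem mem_tabG {X : List (List Bool)} {f : List Bool} {o : Bool} {t u : List Ent} {e : Ent}
    (he : e ∈ tabG X f o t u) : ∃ a ∈ t, ∃ b ∈ u, dj a.1 b.1 = true ∧ un a.1 b.1 = e.1 ∧
      good X f e.1 (gateT X o a.2 b.2) = true ∧ e.2 = gateT X o a.2 b.2 := by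
  unfold tabG at he
  rw [List.mem_flatMap] at he
  obtain ⟨A, hA, he⟩ := he
  cases hc : (cand X f o t u A).head? with
  | none => rw [hc] at he; simp at he
  | some p =>
    rw [hc] at he
    simp only [Option.elim_some, List.mem_singleton] at he
    subst he
    have hp : p ∈ cand X f o t u A := List.mem_of_mem_head? (by rw [hc]; rfl)
    unfold cand at hp
    rw [List.mem_filter, List.mem_flatMap] at hp
    obtain ⟨⟨a, ha, hp1⟩, hp2⟩ := hp
    rw [List.mem_map] at hp1
    obtain ⟨b, hb, rfl⟩ := hp1
    rw [Bool.and_eq_true, Bool.and_eq_true, decide_eq_true_eq] at hp2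
    exact ⟨a, ha, b, hb, hp2.1.1, hp2.1.2, hp2.2, rfl⟩

theorem exists_tabG {X : List (List Bool)} {f : List Bool} {o : Bool} {t u : List Ent} {a b : Ent}
    (ha : a ∈ t) (hb : b ∈ u) (h1 : dj a.1 b.1 = true) (h2 : un a.1 b.1 ∈ X)
    (h3 : good X f (un a.1 b.1) (gateT X o a.2 b.2) = true) :
    ∃ e ∈ tabG X f o t u, e.1 = un a.1 b.1 := by
  have hp : (a, b) ∈ cand X f o t u (un a.1 b.1) := by
    unfold cand
    rw [List.mem_filter, List.mem_flatMap]
    refine ⟨⟨a, ha, List.mem_map.2 ⟨b, hb, rfl⟩⟩, ?_⟩
    rw [Bool.and_eq_true, Bool.and_eq_true, decide_eq_true_eq]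
    exact ⟨⟨h1, rfl⟩, h3⟩
  cases hc : (cand X f o t u (un a.1 b.1)).head? with
  | none =>
    rw [List.head?_eq_none_iff] at hc
    rw [hc] at hp
    simp at hp
  | some p =>
    refine ⟨(un a.1 b.1, gateT X o p.1.2 p.2.2), ?_, rfl⟩
    unfold tabG
    rw [List.mem_flatMap]
    refine ⟨un a.1 b.1, h2, ?_⟩
    rw [hc]
    simp

/-- all candidates are valid -/
theorem all_vd (hASG : S_ASG) (G : List Bool → Bool) (hD : D.length = n) :
    ∀ (t : Sk), ∀ e ∈ t.tb (asg n) ((asg n).map G) D,
      ∃ g : List Bool → Bool, e.2 = (asg n).map g ∧ Vd n D t e.1 g ∧ Gd n G e.1 g := by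
  intro t
  induction t with
  | v s =>
    intro e he
    unfold Sk.tb tabV at he
    rw [List.mem_flatMap] at he
    obtain ⟨i, hi, he⟩ := he
    rw [List.mem_range] at hi
    split_ifs at he with h1
    · rw [List.mem_singleton] at he
      subst he
      rw [Bool.and_eq_true, Bool.not_eq_true'] at h1
      rw [hD] at h1 hi ⊢
      refine ⟨fun x => xor (x.getD i false) s, rfl, vd_v hD hi h1.1 s, ?_⟩
      exact (good_iff hASG (sg_len n i)).1 h1.2
    · simp at he
  | d i s =>
    intro e he
    unfold Sk.tb tabD at he
    split_ifs at he with h1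
    · rw [List.mem_singleton] at he
      subst he
      rw [Bool.and_eq_true, decide_eq_true_eq] at h1
      exact ⟨fun x => xor (x.getD i false) s, rfl, vd_d hD h1.2 s, gd_zero hD G _⟩
    · simp at he
  | nd o a b iha ihb =>
    intro e he
    unfold Sk.tb at he
    obtain ⟨p, hp, q, hq, h1, h2, h3, h4⟩ := mem_tabG he
    obtain ⟨g, hg, hvg, hgg⟩ := iha p hp
    obtain ⟨h, hh, hvh, hgh⟩ := ihb q hq
    rw [hg, hh, gateT_map hASG] at h4 h3
    rw [dj_iff hvg.len hvh.len] at h1
    have hv := hvg.comb hvh h1 o
    rw [h2] at hv
    exact ⟨gt o g h, h4, hv, (good_iff hASG hv.len).1 h3⟩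

/-- the variables of a formula outside `D` -/
def St (n : ℕ) (D : List Bool) (t : Tr) : List Bool :=
  (List.range n).map fun i => decide (i ∈ t.vs) && !(D.getD i false)

theorem St_len (n : ℕ) (D : List Bool) (t : Tr) : (St n D t).length = n := by simp [St]

theorem St_get {t : Tr} (ht : ∀ i ∈ t.vs, i < n) (i : ℕ) :
    (St n D t).getD i false = (decide (i ∈ t.vs) && !(D.getD i false)) := by
  rcases lt_or_ge i n with hi | hi
  · rw [List.getD_eq_getElem _ _ (by rw [St_len]; exact hi)]
    simp [St]
  · rw [getD_ge (St_len n D t) hi]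
    have : i ∉ t.vs := fun h => absurd (ht i h) (by omega)
    simp [this]

theorem St_nd {o : Bool} {a b : Tr} (ht : ∀ i ∈ (Tr.nd o a b).vs, i < n) :
    St n D (Tr.nd o a b) = un (St n D a) (St n D b) := by
  have ha : ∀ i ∈ a.vs, i < n := fun i hi => ht i (by simp [Tr.vs, hi])
  have hb : ∀ i ∈ b.vs, i < n := fun i hi => ht i (by simp [Tr.vs, hi])
  apply ext_getD (St_len n D _) (un_len (St_len n D a) (St_len n D b))
  intro i
  rw [un_get (St_len n D a) (St_len n D b), St_get ht, St_get ha, St_get hb]
  have : decide (i ∈ (Tr.nd o a b).vs) = (decide (i ∈ a.vs) || decide (i ∈ b.vs)) := by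
    simp [Tr.vs]
  rw [this]
  cases decide (i ∈ a.vs) <;> cases decide (i ∈ b.vs) <;> cases D.getD i false <;> simp

theorem St_disj {o : Bool} {a b : Tr} (ht : ∀ i ∈ (Tr.nd o a b).vs, i < n)
    (hc : ∀ i, D.getD i false = false → (Tr.nd o a b).vs.count i ≤ 1) (i : ℕ)
    (hi : (St n D a).getD i false = true) : (St n D b).getD i false = false := by
  have ha : ∀ i ∈ a.vs, i < n := fun i hi => ht i (by simp [Tr.vs, hi])
  have hb : ∀ i ∈ b.vs, i < n := fun i hi => ht i (by simp [Tr.vs, hi])
  rw [St_get ha, Bool.and_eq_true, decide_eq_true_eq, Bool.not_eq_true'] at hi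
  rw [St_get hb, hi.2]
  have h1 := hc i hi.2
  simp only [Tr.vs, List.count_append] at h1
  have h2 : 0 < a.vs.count i := List.count_pos_iff.2 hi.1
  have h3 : b.vs.count i = 0 := by omega
  rw [List.count_eq_zero] at h3
  simp [h3]

theorem ev_nd (o : Bool) (a b : Tr) : (Tr.nd o a b).ev = gt o a.ev b.ev := rfl

theorem vd_tr (hD : D.length = n) : ∀ (t : Tr), (∀ i ∈ t.vs, i < n) →
    (∀ i, D.getD i false = false → t.vs.count i ≤ 1) → Vd n D (t.sk D) (St n D t) t.ev := by
  intro t
  induction t with
  | lf i s =>
    intro ht hc
    have hi : i < n := ht i (by simp [Tr.vs])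
    unfold Tr.sk
    split_ifs with h1
    · have : St n D (Tr.lf i s) = D.map fun _ => false := by
        apply ext_getD (St_len n D _) (by simpa using hD)
        intro j
        rw [St_get ht, zero_get]
        by_cases hj : j = i
        · subst hj; rw [h1]; simp
        · simp [Tr.vs, hj]
      rw [this]
      exact vd_d hD h1 s
    · have h1' : D.getD i false = false := by
        cases h : D.getD i false
        · rfl
        · exact absurd h h1
      have : St n D (Tr.lf i s) = sg n i := by
        apply ext_getD (St_len n D _) (sg_len n i)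
        intro j
        rw [St_get ht, sg_get hi]
        by_cases hj : j = i
        · subst hj; rw [h1']; simp [Tr.vs]
        · simp [Tr.vs, hj]
      rw [this]
      exact vd_v hD hi h1' s
  | nd o a b iha ihb =>
    intro ht hc
    have ha : ∀ i ∈ a.vs, i < n := fun i hi => ht i (by simp [Tr.vs, hi])
    have hb : ∀ i ∈ b.vs, i < n := fun i hi => ht i (by simp [Tr.vs, hi])
    have hca : ∀ i, D.getD i false = false → a.vs.count i ≤ 1 := fun i hi => by
      have := hc i hi
      simp only [Tr.vs, List.count_append] at this
      omega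
    have hcb : ∀ i, D.getD i false = false → b.vs.count i ≤ 1 := fun i hi => by
      have := hc i hi
      simp only [Tr.vs, List.count_append] at this
      omega
    rw [St_nd ht, ev_nd]
    exact (iha ha hca).comb (ihb hb hcb) (St_disj ht hc) o

/-- the table contains a candidate for the set of variables of the true formula -/
theorem found (hASG : S_ASG) (G : List Bool → Bool) (hD : D.length = n) :
    ∀ (t : Tr), (∀ i ∈ t.vs, i < n) → (∀ i, D.getD i false = false → t.vs.count i ≤ 1) →
      Gd n G (St n D t) t.ev →
      ∃ e ∈ (t.sk D).tb (asg n) ((asg n).map G) D, e.1 = St n D t := by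
  intro t
  induction t with
  | lf i s =>
    intro ht hc hG
    have hi : i < n := ht i (by simp [Tr.vs])
    unfold Tr.sk
    split_ifs with h1
    · have : St n D (Tr.lf i s) = D.map fun _ => false := by
        apply ext_getD (St_len n D _) (by simpa using hD)
        intro j
        rw [St_get ht, zero_get]
        by_cases hj : j = i
        · subst hj; rw [h1]; simp
        · simp [Tr.vs, hj]
      refine ⟨(D.map fun _ => false, litT (asg n) i s), ?_, this.symm⟩
      unfold Sk.tb tabD
      rw [if_pos (by rw [hD, h1]; simp [hi])]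
      simp
    · have h1' : D.getD i false = false := by
        cases h : D.getD i false
        · rfl
        · exact absurd h h1
      have : St n D (Tr.lf i s) = sg n i := by
        apply ext_getD (St_len n D _) (sg_len n i)
        intro j
        rw [St_get ht, sg_get hi]
        by_cases hj : j = i
        · subst hj; rw [h1']; simp [Tr.vs]
        · simp [Tr.vs, hj]
      rw [this] at hG ⊢
      refine ⟨(sg n i, litT (asg n) i s), ?_, rfl⟩
      unfold Sk.tb tabV
      rw [List.mem_flatMap, hD]
      refine ⟨i, List.mem_range.2 hi, ?_⟩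
      have h2 : good (asg n) ((asg n).map G) (sg n i) (litT (asg n) i s) = true :=
        (good_iff hASG (g := fun x => xor (x.getD i false) s) (sg_len n i)).2 hG
      rw [h1', h2]
      simp
  | nd o a b iha ihb =>
    intro ht hc hG
    have ha : ∀ i ∈ a.vs, i < n := fun i hi => ht i (by simp [Tr.vs, hi])
    have hb : ∀ i ∈ b.vs, i < n := fun i hi => ht i (by simp [Tr.vs, hi])
    have hca : ∀ i, D.getD i false = false → a.vs.count i ≤ 1 := fun i hi => by
      have := hc i hi
      simp only [Tr.vs, List.count_append] at this
      omega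
    have hcb : ∀ i, D.getD i false = false → b.vs.count i ≤ 1 := fun i hi => by
      have := hc i hi
      simp only [Tr.vs, List.count_append] at this
      omega
    rw [St_nd ht] at hG ⊢
    rw [ev_nd] at hG
    have hd := St_disj ht hc
    have va := vd_tr hD a ha hca
    have vb := vd_tr hD b hb hcb
    obtain ⟨p, hp, hp1⟩ := iha ha hca (Gd.left va vb hd hG)
    obtain ⟨q, hq, hq1⟩ := ihb hb hcb (Gd.right va vb hd hG)
    obtain ⟨g', hg', vg', gg'⟩ := all_vd hASG G hD _ p hp
    obtain ⟨h', hh', vh', gh'⟩ := all_vd hASG G hD _ q hq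
    rw [hp1] at vg' gg'
    rw [hq1] at vh' gh'
    have key := exchange va vb vg' vh' hd gg' gh' hG
    have := exists_tabG (X := asg n) (f := (asg n).map G) (o := o) hp hq
      (by rw [hp1, hq1]; exact (dj_iff (St_len n D a) (St_len n D b)).2 hd)
      (by rw [hp1, hq1]; exact (hASG.1 n _).2 (un_len (St_len n D a) (St_len n D b)))
      (by
        rw [hp1, hq1, hg', hh', gateT_map hASG]
        exact (good_iff hASG (un_len (St_len n D a) (St_len n D b))).2 key)
    rw [hp1, hq1] at this
    exact this

end CPL

open CPL in
theorem t_CPL (hASG : S_ASG) : S_CPL := by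
  intro n G D t hD ht hc hG
  have hc' : ∀ i, D.getD i false = false → t.vs.count i ≤ 1 := fun i hi => by
    by_contra h
    have := (hc i).2 (by omega)
    rw [hi] at this
    exact absurd this (by simp)
  have v := vd_tr hD t ht hc'
  have hgd : Gd n G (St n D t) t.ev := fun z hz => Or.inl fun x hx =>
    (hG _ (mx_len (St_len n D t) hx hz)).symm
  obtain ⟨e, he, he1⟩ := found hASG G hD t ht hc' hgd
  obtain ⟨g, hg, vg, gg⟩ := all_vd hASG G hD _ e he
  rw [he1] at vg gg
  refine ⟨e, he, ?_⟩
  rw [hg]
  apply List.map_congr_left
  intro z hz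
  rw [hASG.1] at hz
  rcases gg z hz with h | h
  · have := h z hz
    rw [mx_self (St_len n D t) hz] at this
    exact this.symm
  · have h1 : ∀ x : List Bool, x.length = n → t.ev (mx (St n D t) x z) = G z := fun x hx => by
      rw [hG _ (mx_len (St_len n D t) hx hz)]
      exact h x hx
    have h2 := (vg.typ z hz (G z)).2 ((v.typ z hz (G z)).1 h1) z hz
    rw [mx_self (St_len n D t) hz] at h2
    exact h2

end Pool.Agent.H529R2.MQ
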