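import Pool.Agent.H529R2.MQ.Defs

/-!
# Polynomial time, part 1: everything except the fold
-/

namespace Pool.Agent.H529R2.MQ

open Pool.Agent.NPC

attribute [local fun_prop] Poly.range_length

variable {α : Type} [TEnc α]

theorem poly_mx {A x z : α → List Bool} (hA : Poly A) (hx : Poly x) (hz : Poly z) :
    Poly (fun a => mx (A a) (x a) (z a)) := by
  unfold mx
  fun_prop

attribute [local fun_prop] poly_mx

theorem poly_lk {X : α → List (List Bool)} {g x : α → List Bool} (hX : Poly X) (hg : Poly g)
    (hx : Poly x) : Poly (fun a => lk (X a) (g a) (x a)) := by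
  unfold lk
  fun_prop

attribute [local fun_prop] poly_lk

theorem poly_dj {A B : α → List Bool} (hA : Poly A) (hB : Poly B) :
    Poly (fun a => dj (A a) (B a)) := by
  unfold dj
  fun_prop

attribute [local fun_prop] poly_dj

theorem poly_un {A B : α → List Bool} (hA : Poly A) (hB : Poly B) :
    Poly (fun a => un (A a) (B a)) := by
  unfold un
  fun_prop

attribute [local fun_prop] poly_un

theorem poly_sg {β : Type} [TEnc β] {l : α → List β} {i : α → ℕ} (hl : Poly l) (hi : Poly i) :
    Poly (fun a => sg (l a).length (i a)) := by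
  unfold sg
  fun_prop

attribute [local fun_prop] poly_sg

theorem poly_good {X : α → List (List Bool)} {f A g : α → List Bool} (hX : Poly X) (hf : Poly f)
    (hA : Poly A) (hg : Poly g) : Poly (fun a => good (X a) (f a) (A a) (g a)) := by
  unfold good
  fun_prop

attribute [local fun_prop] poly_good

theorem poly_litT {X : α → List (List Bool)} {i : α → ℕ} {s : α → Bool} (hX : Poly X)
    (hi : Poly i) (hs : Poly s) : Poly (fun a => litT (X a) (i a) (s a)) := by
  unfold litT
  fun_prop

attribute [local fun_prop] poly_litT

theorem poly_gateT {X : α → List (List Bool)} {o : α → Bool} {g h : α → List Bool} (hX : Poly X)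
    (ho : Poly o) (hg : Poly g) (hh : Poly h) :
    Poly (fun a => gateT (X a) (o a) (g a) (h a)) := by
  unfold gateT
  fun_prop

attribute [local fun_prop] poly_gateT

theorem poly_tabV {X : α → List (List Bool)} {f D : α → List Bool} {s : α → Bool} (hX : Poly X)
    (hf : Poly f) (hD : Poly D) (hs : Poly s) :
    Poly (fun a => tabV (X a) (f a) (D a) (s a)) := by
  unfold tabV
  fun_prop

attribute [local fun_prop] poly_tabV

theorem poly_tabD {X : α → List (List Bool)} {D : α → List Bool} {i : α → ℕ} {s : α → Bool}
    (hX : Poly X) (hD : Poly D) (hi : Poly i) (hs : Poly s) :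
    Poly (fun a => tabD (X a) (D a) (i a) (s a)) := by
  unfold tabD
  fun_prop

attribute [local fun_prop] poly_tabD

theorem poly_cand {X : α → List (List Bool)} {f : α → List Bool} {o : α → Bool}
    {t u : α → List Ent} {A : α → List Bool} (hX : Poly X) (hf : Poly f) (ho : Poly o)
    (ht : Poly t) (hu : Poly u) (hA : Poly A) :
    Poly (fun a => cand (X a) (f a) (o a) (t a) (u a) (A a)) := by
  unfold cand
  fun_prop

attribute [local fun_prop] poly_cand

theorem poly_tabG {X : α → List (List Bool)} {f : α → List Bool} {o : α → Bool}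
    {t u : α → List Ent} (hX : Poly X) (hf : Poly f) (ho : Poly o)
    (ht : Poly t) (hu : Poly u) :
    Poly (fun a => tabG (X a) (f a) (o a) (t a) (u a)) := by
  unfold tabG
  fun_prop

attribute [local fun_prop] poly_tabG

theorem poly_exec {X : α → List (List Bool)} {f D buf : α → List Bool} {st : α → Stk}
    (hX : Poly X) (hf : Poly f) (hD : Poly D) (hb : Poly buf) (hst : Poly st) :
    Poly (fun a => exec (X a) (f a) (D a) (buf a) (st a)) := by
  have hv : Poly (fun a => valB (buf a).tail.tail) := Poly.valBits (by fun_prop)
  unfold exec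
  fun_prop

attribute [local fun_prop] poly_exec

theorem poly_step {X : α → List (List Bool)} {f D : α → List Bool} {m : α → ℕ}
    {S : α → List Bool × Stk} {b : α → Bool} (hX : Poly X) (hf : Poly f) (hD : Poly D)
    (hm : Poly m) (hS : Poly S) (hb : Poly b) :
    Poly (fun a => step (X a) (f a) (D a) (m a) (S a) (b a)) := by
  unfold step
  fun_prop

attribute [local fun_prop] poly_step

theorem poly_pw {X : α → List (List Bool)} (hX : Poly X) (K : ℕ) :
    Poly (fun a => pw (X a) K) := by
  induction K with
  | zero => exact Pool.Agent.NPC.Poly.const ([[]] : List (List Bool))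
  | succ K ih =>
    unfold pw
    fun_prop

attribute [local fun_prop] poly_pw

theorem poly_essL {X : α → List (List Bool)} {f l : α → List Bool} (hX : Poly X) (hf : Poly f)
    (hl : Poly l) : Poly (fun a => essL (X a) (f a) (l a)) := by
  unfold essL
  fun_prop

attribute [local fun_prop] poly_essL

theorem poly_lg {f : α → List Bool} (hf : Poly f) : Poly (fun a => lg (f a)) := by
  unfold lg
  exact Poly.tail (Poly.natBits (Poly.length hf))

attribute [local fun_prop] poly_lg

theorem POLY1_length_dbl (L : List (List Bool)) : (dbl L).length = 2 * L.length := by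
  unfold dbl
  simp
  omega

theorem POLY1_iter_length (k : ℕ) : (dbl^[k] [[]]).length = 2 ^ k := by
  induction k with
  | zero => rfl
  | succ k ih => rw [Function.iterate_succ_apply', POLY1_length_dbl, ih, pow_succ]; ring

theorem POLY1_iter_mem (k : ℕ) : ∀ x ∈ dbl^[k] [[]], x.length = k := by
  induction k with
  | zero => intro x hx; simp at hx; simp [hx]
  | succ k ih =>
    intro x hx
    rw [Function.iterate_succ_apply'] at hx
    unfold dbl at hx
    rw [List.mem_append, List.mem_map, List.mem_map] at hx
    rcases hx with ⟨y, hy, rfl⟩ | ⟨y, hy, rfl⟩ <;> simp [ih y hy]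

theorem POLY1_two_pow_le (f : List Bool) (k : ℕ) (hk : k ≤ (lg f).length) :
    2 ^ k ≤ f.length + 1 := by
  unfold lg at hk
  rw [List.length_tail] at hk
  rw [Nat.size_eq_bits_len] at hk
  rcases Nat.eq_zero_or_pos k with h | h
  · subst h; simp
  · have : k < Nat.size f.length := by omega
    have := Nat.lt_size.mp this
    omega

theorem poly_asgT {f : α → List Bool} (hf : Poly f) : Poly (fun a => asgT (f a)) := by
  unfold asgT
  obtain ⟨p, hp⟩ := hf.sz_le
  have hF : Poly (fun q : α × List (List Bool) => dbl q.2) := by
    unfold dbl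
    fun_prop
  refine Poly.iterLen (l := fun a => lg (f a)) (s := fun _ => ([[]] : List (List Bool)))
    (F := fun _ L => dbl L) (poly_lg hf) (Pool.Agent.NPC.Poly.const ([[]] : List (List Bool))) hF
    ((p + 1) * (4 * p + 2) + 1) ?_
  intro a k hk
  have h1 := POLY1_two_pow_le (f a) k hk
  have h2 : (f a).length ≤ p.eval (sz a) := ((length_lt_sz (f a)).le).trans (hp a)
  have h3 : k < 2 ^ k := Nat.lt_two_pow_self
  have h4 := sz_le_length_mul (dbl^[k] [[]]) (4 * k + 1) (fun x hx => by
    have := sz_listBool_le x
    rw [POLY1_iter_mem k x hx] at this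
    exact this)
  rw [POLY1_iter_length] at h4
  have h5 : (2 ^ k) * (4 * k + 1 + 1) + 1 ≤
      (Polynomial.eval (sz a) p + 1) * (4 * Polynomial.eval (sz a) p + 2) + 1 := by
    exact Nat.add_le_add_right (Nat.mul_le_mul (by omega) (by omega)) 1
  refine h4.trans ?_
  simpa using h5

attribute [local fun_prop] poly_asgT

end Pool.Agent.H529R2.MQ
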