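import Pool.Agent.H529R2.MQ.Defs

/-!
# Minimum formula size slightly above the number of variables: assignments
-/

namespace Pool.Agent.H529R2.MQ

open Pool.Agent.NPC Pool.Agent.H532R2.MC Pool.Agent.H532R2.MF

theorem ASG_zero : asg 0 = [[]] := rfl

theorem ASG_succ (n : ℕ) : asg (n + 1) =
    (asg n).map (fun x => false :: x) ++ (asg n).map (fun x => true :: x) :=
  Function.iterate_succ_apply' _ _ _

theorem ASG_mem (n : ℕ) : ∀ x : List Bool, x ∈ asg n ↔ x.length = n := by
  induction n with
  | zero => intro x; simp [ASG_zero]
  | succ n ih =>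
    intro x
    rw [ASG_succ, List.mem_append, List.mem_map, List.mem_map]
    constructor
    · rintro (⟨y, hy, rfl⟩ | ⟨y, hy, rfl⟩)
      · simp [(ih y).1 hy]
      · simp [(ih y).1 hy]
    · intro hx
      cases x with
      | nil => simp at hx
      | cons b y =>
        have hy : y.length = n := by simpa using hx
        cases b with
        | false => exact Or.inl ⟨y, (ih y).2 hy, rfl⟩
        | true => exact Or.inr ⟨y, (ih y).2 hy, rfl⟩

theorem ASG_nodup (n : ℕ) : (asg n).Nodup := by
  induction n with
  | zero => simp [ASG_zero]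
  | succ n ih =>
    rw [ASG_succ]
    refine List.Nodup.append ?_ ?_ ?_
    · exact ih.map (fun a b h => by simpa using h)
    · exact ih.map (fun a b h => by simpa using h)
    · intro a h1 h2
      rw [List.mem_map] at h1 h2
      obtain ⟨y, -, rfl⟩ := h1
      obtain ⟨z, -, hz⟩ := h2
      simp at hz

theorem ASG_length (n : ℕ) : (asg n).length = 2 ^ n := by
  induction n with
  | zero => simp [ASG_zero]
  | succ n ih =>
    rw [ASG_succ, List.length_append, List.length_map, List.length_map, ih, pow_succ]
    ring

theorem ASG_fnc {n : ℕ} (f : BF (n + 1)) (b : Bool) (x : List Bool) :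
    fnc f (b :: x) = fnc (fun y : Fin n → Bool => f (Fin.cons b y)) x := by
  unfold fnc
  refine congrArg f ?_
  funext i
  refine Fin.cases ?_ (fun j => ?_) i
  · simp
  · simp

theorem ASG_table (n : ℕ) : ∀ f : BF n, table n f = (asg n).map (fnc f) := by
  induction n with
  | zero =>
    intro f
    rw [ASG_zero]
    simp only [table, List.map_cons, List.map_nil, fnc]
    refine congrArg (fun t => [t]) (congrArg f ?_)
    funext i
    exact i.elim0
  | succ n ih =>
    intro f
    rw [ASG_succ, List.map_append, List.map_map, List.map_map]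
    simp only [table]
    rw [ih, ih]
    refine congrArg₂ _ ?_ ?_
    · refine List.map_congr_left fun x _ => ?_
      exact (ASG_fnc f false x).symm
    · refine List.map_congr_left fun x _ => ?_
      exact (ASG_fnc f true x).symm

theorem ASG_lk_gen (G : List Bool → Bool) (x : List Bool) : ∀ X : List (List Bool),
    lk X (X.map G) x = X.any fun y => decide (y = x) && G y := by
  intro X
  unfold lk
  induction X with
  | nil => simp
  | cons a X ih =>
    rw [List.map_cons, List.zip_cons_cons, List.any_cons, List.any_cons, ih]

theorem ASG_lk (n : ℕ) (G : List Bool → Bool) (x : List Bool) (hx : x.length = n) :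
    lk (asg n) ((asg n).map G) x = G x := by
  rw [ASG_lk_gen]
  rw [Bool.eq_iff_iff, List.any_eq_true]
  constructor
  · rintro ⟨y, -, hy⟩
    rw [Bool.and_eq_true, decide_eq_true_eq] at hy
    rw [← hy.1]; exact hy.2
  · intro h
    refine ⟨x, (ASG_mem n x).2 hx, ?_⟩
    simp [h]

theorem t_ASG : S_ASG :=
  ⟨ASG_mem, ASG_nodup, ASG_length, ASG_table, ASG_lk⟩

end Pool.Agent.H529R2.MQ
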