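import Pool.Agent.H529R2.MQ.Defs

/-! CNT: counting of repeated entries (helper20). -/

namespace Pool.Agent.H529R2.MQ

theorem cnt_filter (p : ℕ → Bool) (l : List ℕ) :
    (l.filter p).length = (l.map fun i => if p i = true then 1 else 0).sum := by
  induction l with
  | nil => rfl
  | cons a l ih =>
    rw [List.filter_cons, List.map_cons, List.sum_cons, ← ih]
    split_ifs with h
    · rw [List.length_cons]; omega
    · omega

theorem cnt_length (l : List ℕ) : l.length = (l.map fun _ => 1).sum := by
  induction l with
  | nil => rfl
  | cons a l ih =>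
    rw [List.map_cons, List.sum_cons, ← ih, List.length_cons]
    omega

theorem t_CNT : S_CNT := by
  intro l
  rw [cnt_filter, cnt_length l, Finset.sum_list_map_count, Finset.sum_list_map_count,
    Finset.card_eq_sum_ones, Finset.mul_sum, Finset.mul_sum, ← Finset.sum_add_distrib]
  apply Finset.sum_le_sum
  intro a ha
  have h1 : 1 ≤ l.count a := List.count_pos_iff.2 (List.mem_toFinset.1 ha)
  simp only [smul_eq_mul, mul_one]
  by_cases h : 2 ≤ l.count a
  · rw [if_pos (by simpa using h)]
    omega
  · rw [if_neg (by simpa using h)]
    omega

end Pool.Agent.H529R2.MQ
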