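import Pool.Agent.H529R2.MQ.Defs

namespace Pool.Agent.H529R2.MQ

open Pool.Agent.NPC Pool.Agent.H532R2.MC Pool.Agent.H532R2.MF

theorem cor_exG {α : Type} [DecidableEq α] (X : List α) (T : List Bool) (hX : X.Nodup)
    (h : T.length = X.length) : ∃ G : α → Bool, X.map G = T := by
  induction X generalizing T with
  | nil =>
    refine ⟨fun _ => false, ?_⟩
    rw [List.length_nil, List.length_eq_zero_iff] at h
    rw [h]; rfl
  | cons x X ih =>
    cases T with
    | nil => simp at h
    | cons t T =>
      rw [List.nodup_cons] at hX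
      obtain ⟨G, hG⟩ := ih T hX.2 (by simpa using h)
      refine ⟨Function.update G x t, ?_⟩
      rw [List.map_cons, Function.update_self]
      congr 1
      rw [← hG]
      apply List.map_congr_left
      intro y hy
      rw [Function.update_of_ne]
      rintro rfl
      exact hX.1 hy

theorem cor_ofFn (n : ℕ) (x : List Bool) (h : x.length = n) :
    List.ofFn (fun i : Fin n => x.getD i false) = x := by
  subst h
  apply List.ext_getElem
  · simp
  · intro i h1 h2
    simp only [List.getElem_ofFn]
    rw [List.getD_eq_getElem _ _ h2]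

theorem cor_fnc_ofFn (n : ℕ) (f : BF n) (y : Fin n → Bool) : fnc f (List.ofFn y) = f y := by
  unfold fnc
  congr 1
  funext i
  have h : (i : ℕ) < (List.ofFn y).length := by simp
  rw [List.getD_eq_getElem _ _ h, List.getElem_ofFn]

theorem cor_exf (hASG : S_ASG) (n : ℕ) (T : List Bool) (hT : T.length = 2 ^ n) :
    ∃ f : BF n, T = (asg n).map (fnc f) := by
  obtain ⟨G, hG⟩ := cor_exG (asg n) T (hASG.2.1 n) (by rw [hT, hASG.2.2.1 n])
  refine ⟨fun y => G (List.ofFn y), ?_⟩
  rw [← hG]
  apply List.map_congr_left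
  intro x hx
  show G x = G (List.ofFn fun i : Fin n => x.getD i false)
  rw [cor_ofFn n x ((hASG.1 n x).1 hx)]

theorem cor_uniq (hASG : S_ASG) (n : ℕ) (f g : BF n)
    (h : (asg n).map (fnc f) = (asg n).map (fnc g)) : f = g := by
  funext y
  have h1 : ∀ x ∈ asg n, fnc f x = fnc g x := by
    intro x hx
    exact List.map_inj_left.1 h x hx
  have h2 := h1 (List.ofFn y) ((hASG.1 n _).2 (by simp))
  rwa [cor_fnc_ofFn, cor_fnc_ofFn] at h2

theorem cor_len (hASG : S_ASG) (n : ℕ) (T : List Bool) :
    ((lg T).length = n ∧ (asgT T).length = T.length) ↔ T.length = 2 ^ n := by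
  have e : (asgT T).length = 2 ^ (lg T).length := hASG.2.2.1 _
  constructor
  · rintro ⟨h1, h2⟩
    rw [← h2, e, h1]
  · intro h
    have h1 : (lg T).length = n := by
      unfold lg
      rw [List.length_tail, Nat.size_eq_bits_len, h, Nat.size_pow, Nat.add_sub_cancel]
    refine ⟨h1, ?_⟩
    rw [e, h1, h]

theorem cor_lv (D : List Bool) (t : Tr) : (t.sk D).lv = t.vs.length := by
  induction t with
  | lf i s =>
    unfold Tr.sk
    split_ifs <;> rfl
  | nd o a b iha ihb =>
    show (a.sk D).lv + (b.sk D).lv = (a.vs ++ b.vs).length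
    rw [iha, ihb, List.length_append]

theorem cor_lt (D : List Bool) (M : ℕ) (t : Tr) (h : ∀ i ∈ t.vs, i < M) : (t.sk D).lt M := by
  induction t with
  | lf i s =>
    unfold Tr.sk
    split_ifs
    · exact h i (by simp [Tr.vs])
    · trivial
  | nd o a b iha ihb =>
    exact ⟨iha (fun i hi => h i (by simp [Tr.vs, hi])), ihb (fun i hi => h i (by simp [Tr.vs, hi]))⟩

theorem cor_vs_ne (t : Tr) : t.vs ≠ [] := by
  induction t with
  | lf i s => simp [Tr.vs]
  | nd o a b iha ihb => simp [Tr.vs, iha]

theorem cor_search (hASG : S_ASG) (hESS : S_ESS) (hCNT : S_CNT) (hLEN : S_LEN)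
    (hRUN : S_RUN) (hPAD : S_PAD) (hCPL : S_CPL) (hPW : S_PW) (C n s : ℕ) (f : BF n)
    (hs : (s - ess f) * n.bits.length ≤ C * n) (t : Tr) (ht : t.vs.length ≤ s)
    (hlt : ∀ i ∈ t.vs, i < n) (hev : ∀ x : List Bool, t.ev x = fnc f x) :
    search (8 * C + 6) (asg n) ((asg n).map (fnc f)) s = true := by
  set T := (asg n).map (fnc f) with hT
  set D : List Bool := (List.range n).map (fun i => decide (2 ≤ t.vs.count i)) with hD
  have hDl : D.length = n := by simp [hD]
  have hDg : ∀ i, D.getD i false = true ↔ 2 ≤ t.vs.count i := by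
    intro i
    by_cases hi : i < n
    · rw [List.getD_eq_getElem _ _ (by rw [hDl]; exact hi)]
      simp [hD]
    · have h1 : D.getD i false = false := by
        rw [List.getD_eq_default _ _ (by rw [hDl]; omega)]
      have h2 : t.vs.count i = 0 := by
        rw [List.count_eq_zero]
        intro h
        exact hi (hlt i h)
      rw [h1, h2]
      simp
  have hn : 1 ≤ n := by
    obtain ⟨i, hi⟩ := List.exists_mem_of_ne_nil _ (cor_vs_ne t)
    have := hlt i hi
    omega
  set m := n.bits.length with hm
  have hm' : m = n.size := Nat.size_eq_bits_len n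
  have hmn : m ≤ n := by
    rw [hm', Nat.size_le]
    exact Nat.lt_two_pow_self
  have hm1 : 1 ≤ m := by
    rw [hm']
    exact Nat.size_pos.2 (by omega)
  have hn2 : n < 2 ^ m := by
    rw [hm']
    exact Nat.lt_size_self n
  obtain ⟨a, ha, haT⟩ := hCPL n (fnc f) D t hDl hlt hDg (fun x _ => hev x)
  have hE : ess f ≤ t.vs.toFinset.card := hESS n f t hlt (fun x _ => hev x)
  have hcn : t.vs.toFinset.card ≤ n := by
    calc t.vs.toFinset.card ≤ (Finset.range n).card := by
          apply Finset.card_le_card
          intro i hi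
          rw [List.mem_toFinset] at hi
          exact Finset.mem_range.2 (hlt i hi)
      _ = n := Finset.card_range n
  have hcL : t.vs.toFinset.card ≤ t.vs.length := List.toFinset_card_le _
  have hU := hCNT t.vs
  have hfilt : (t.vs.filter fun i => D.getD i false) =
      (t.vs.filter fun i => decide (2 ≤ t.vs.count i)) := by
    apply List.filter_congr
    intro i _
    by_cases h : 2 ≤ t.vs.count i
    · rw [(hDg i).2 h]; simp [h]
    · have : D.getD i false = false := by
        by_contra h'
        exact h ((hDg i).1 (by simpa using h'))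
      rw [this]; simp [h]
  have hlen := hLEN m D t
  rw [hfilt] at hlen
  set U := (t.vs.filter fun i => decide (2 ≤ t.vs.count i)).length with hUd
  have hbound : ((t.sk D).enc m).length ≤ (8 * C + 6) * n := by
    have h1 : U ≤ 2 * (s - ess f) := by omega
    have h2 : m * U ≤ 2 * (C * n) := by
      calc m * U ≤ m * (2 * (s - ess f)) := Nat.mul_le_mul_left _ h1
        _ = 2 * ((s - ess f) * m) := by ring
        _ ≤ 2 * (C * n) := Nat.mul_le_mul_left _ hs
    have h3 : s - ess f ≤ C * n := by
      calc s - ess f = (s - ess f) * 1 := (mul_one _).symm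
        _ ≤ (s - ess f) * m := Nat.mul_le_mul_left _ hm1
        _ ≤ C * n := hs
    have h4 : t.vs.length ≤ n + C * n := by omega
    calc ((t.sk D).enc m).length ≤ 6 * t.vs.length + m * U := hlen
      _ ≤ 6 * (n + C * n) + 2 * (C * n) := by omega
      _ = (8 * C + 6) * n := by ring
  have hskip : (t.sk D).lt (2 ^ m) := cor_lt D _ t (fun i hi => (hlt i hi).trans hn2)
  unfold search
  rw [List.any_eq_true]
  refine ⟨D, (hASG.1 n D).2 hDl, ?_⟩
  rw [List.any_eq_true]
  refine ⟨m, List.mem_range.2 (by rw [hDl]; omega), ?_⟩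
  rw [List.any_eq_true]
  refine ⟨(t.sk D).enc m ++ List.replicate ((8 * C + 6) * n - ((t.sk D).enc m).length) true,
    (hPW n _ _).2 ?_, ?_⟩
  · rw [List.length_append, List.length_replicate]
    omega
  · unfold acc
    rw [List.any_eq_true]
    refine ⟨((t.sk D).tb (asg n) T D, (t.sk D).lv), ?_, ?_⟩
    · unfold run
      rw [List.foldl_append, hRUN (asg n) T D m (t.sk D) [] hskip]
      exact hPAD (asg n) T D m _ _ _ (by simp)
    · rw [Bool.and_eq_true, decide_eq_true_iff, List.any_eq_true]
      refine ⟨by rw [cor_lv]; exact ht, a, ha, ?_⟩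
      rw [decide_eq_true_iff]
      exact haT

theorem t_COR (hASG : S_ASG) (hNF : S_NF) (hESS : S_ESS) (hESSL : S_ESSL) (hCNT : S_CNT)
    (hLEN : S_LEN) (hRUN : S_RUN) (hPAD : S_PAD) (hSND : S_SND) (hCPL : S_CPL) (hPW : S_PW) :
    S_COR := by
  rintro C ⟨n, T, s⟩
  by_cases hTl : T.length = 2 ^ n
  swap
  · constructor
    · intro h
      unfold algo at h
      simp only [Bool.and_eq_true, decide_eq_true_iff] at h
      exact absurd ((cor_len hASG n T).1 ⟨h.1.1, h.1.2⟩) hTl
    · rintro ⟨h, -⟩
      exact absurd h.1 hTl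
  obtain ⟨f, hf⟩ := cor_exf hASG n T hTl
  obtain ⟨hlg, hasgT⟩ := (cor_len hASG n T).2 hTl
  have hA : asgT T = asg n := by
    unfold asgT asg
    rw [hlg]
  have hess : essL (asgT T) T (lg T) = ess f := by
    rw [hA, hf]
    exact hESSL n f _ (by rw [← hf]; exact hlg)
  have hclose : Close C n T s ↔ (s - ess f) * n.bits.length ≤ C * n := by
    constructor
    · rintro ⟨g, hg, h⟩
      rw [hASG.2.2.2.1 n g] at hg
      have : f = g := cor_uniq hASG n f g (hf.symm.trans hg)
      rw [this]
      exact h
    · intro h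
      exact ⟨f, by rw [hASG.2.2.2.1 n f]; exact hf, h⟩
  have hkey : (s - ess f) * n.bits.length ≤ C * n →
      (((T = T.map fun _ => false) ∨ (T = T.map fun _ => true)) ∨
        search (8 * C + 6) (asg n) T s = true ↔ MFSP n T s) := by
    intro hs
    constructor
    · rintro (h | h)
      · obtain ⟨b, hb⟩ : ∃ b : Bool, T = T.map fun _ => b := by
          rcases h with h | h
          · exact ⟨false, h⟩
          · exact ⟨true, h⟩
        refine ⟨hTl, Formula.const b, ?_, Nat.zero_le _⟩
        rw [hASG.2.2.2.1 n, hb, hf, List.map_map]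
        rfl
      · unfold search at h
        rw [List.any_eq_true] at h
        obtain ⟨D, hD, h⟩ := h
        rw [List.any_eq_true] at h
        obtain ⟨m, hm, h⟩ := h
        rw [List.any_eq_true] at h
        obtain ⟨w, hw, h⟩ := h
        unfold acc at h
        rw [List.any_eq_true] at h
        obtain ⟨e, he, h⟩ := h
        rw [Bool.and_eq_true, decide_eq_true_iff, List.any_eq_true] at h
        obtain ⟨h1, a, ha, h2⟩ := h
        rw [decide_eq_true_iff] at h2
        obtain ⟨t, ht1, ht2, ht3⟩ := hSND n T D m w ((hASG.1 n D).1 hD) e he a ha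
        obtain ⟨F, hF1, hF2⟩ := hNF.2 n t ht2
        refine ⟨hTl, F, ?_, ?_⟩
        · rw [hASG.2.2.2.1 n, ← h2, ht3]
          apply List.map_congr_left
          intro x _
          exact hF2 x
        · rw [hF1, ht1]
          exact h1
    · rintro ⟨-, F, hF1, hF2⟩
      rw [hASG.2.2.2.1 n] at hF1
      have hfF : f = F.eval := cor_uniq hASG n f F.eval (hf.symm.trans hF1)
      rcases hNF.1 n F with ⟨b, hb⟩ | ⟨t, ht1, ht2, ht3⟩
      · left
        have h1 : T = T.map fun _ => b := by
          rw [hF1, List.map_map, hb]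
          rfl
        cases b with
        | false => exact Or.inl h1
        | true => exact Or.inr h1
      · right
        rw [hf]
        exact cor_search hASG hESS hCNT hLEN hRUN hPAD hCPL hPW C n s f hs t (ht1.trans hF2) ht2
          (fun x => by rw [ht3 x, hfF])
  show algo C (n, T, s) = true ↔ MFSP n T s ∧ Close C n T s
  unfold algo
  simp only [Bool.and_eq_true, Bool.or_eq_true, decide_eq_true_iff]
  rw [hclose, hess, hA]
  constructor
  · rintro ⟨-, h1, h2⟩
    exact ⟨(hkey h1).1 h2, h1⟩
  · rintro ⟨h1, h2⟩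
    exact ⟨⟨hlg, by rw [← hA]; exact hasgT⟩, h2, (hkey h2).2 h1⟩

end Pool.Agent.H529R2.MQ
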