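import Pool.Agent.H529R2.MQ.Defs

/-!
# ESS: a formula contains all essential variables (helper724)
-/

namespace Pool.Agent.H529R2.MQ

open Pool.Agent.NPC Pool.Agent.H532R2.MC Pool.Agent.H532R2.MF

theorem ESS_ev_congr (t : Tr) (x y : List Bool)
    (h : ∀ j ∈ t.vs, x.getD j false = y.getD j false) : t.ev x = t.ev y := by
  induction t with
  | lf i s =>
    simp only [Tr.ev]
    rw [h i (by simp [Tr.vs])]
  | nd o a b iha ihb =>
    simp only [Tr.ev]
    rw [iha fun j hj => h j (by simp [Tr.vs, hj]), ihb fun j hj => h j (by simp [Tr.vs, hj])]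

theorem ESS_getD_ofFn {n : ℕ} (y : Fin n → Bool) (i : Fin n) :
    (List.ofFn y).getD i false = y i := by
  rw [List.getD_eq_getElem?_getD, List.getElem?_ofFn]
  simp

theorem ESS_fnc_ofFn {n : ℕ} (f : BF n) (y : Fin n → Bool) : fnc f (List.ofFn y) = f y := by
  unfold fnc
  congr 1
  funext i
  exact ESS_getD_ofFn y i

theorem t_ESS : S_ESS := by
  intro n f t hlt hev
  classical
  unfold ess
  refine Finset.card_le_card_of_injOn (fun i : Fin n => i.val) ?_ ?_
  · intro i hi
    have hi' := (Finset.mem_filter.1 (Finset.mem_coe.1 hi)).2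
    obtain ⟨x, hx⟩ := hi'
    rw [Finset.mem_coe, List.mem_toFinset]
    by_contra hni
    apply hx
    rw [← ESS_fnc_ofFn f (Function.update x i true), ← ESS_fnc_ofFn f (Function.update x i false),
      ← hev _ (List.length_ofFn), ← hev _ (List.length_ofFn)]
    apply ESS_ev_congr
    intro j hj
    have hjn := hlt j hj
    have hji : (⟨j, hjn⟩ : Fin n) ≠ i := by
      rintro rfl
      exact hni hj
    have h1 := ESS_getD_ofFn (Function.update x i true) ⟨j, hjn⟩
    have h2 := ESS_getD_ofFn (Function.update x i false) ⟨j, hjn⟩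
    simp only at h1 h2
    rw [h1, h2, Function.update_of_ne hji, Function.update_of_ne hji]
  · intro i _ j _ hij
    exact Fin.ext hij

end Pool.Agent.H529R2.MQ
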