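import Pool.Agent.H671R2.PolyAuto
import Pool.Agent.NPC.Classes
import Pool.Agent.H532R2.MF.FDefs

/-!
# Minimum formula size slightly above the number of variables: definitions

Assignments and sets of variables are Boolean lists of length `n`; a Boolean function is the list of
its values on all assignments (its truth table).
-/

namespace Pool.Agent.H529R2.MQ

open Pool.Agent.NPC Pool.Agent.H532R2.MC Pool.Agent.H532R2.MF

/-! ### Assignments -/

/-- One more variable in front. -/
def dbl (L : List (List Bool)) : List (List Bool) :=
  L.map (fun x => false :: x) ++ L.map (fun x => true :: x)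

/-- All assignments, in the order of truth tables. -/
def asg (n : ℕ) : List (List Bool) := dbl^[n] [[]]

/-- The assignment `x` on the set `A`, the assignment `z` elsewhere. -/
def mx (A x z : List Bool) : List Bool :=
  (A.zip (x.zip z)).map fun q => if q.1 = true then q.2.1 else q.2.2

/-- The value at `x` of the function with the table `g`. -/
def lk (X : List (List Bool)) (g x : List Bool) : Bool :=
  (X.zip g).any fun p => decide (p.1 = x) && p.2

/-- Disjointness of two sets. -/
def dj (A B : List Bool) : Bool := (A.zip B).all fun q => !(q.1 && q.2)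

/-- The union of two sets. -/
def un (A B : List Bool) : List Bool := (A.zip B).map fun q => q.1 || q.2

/-- The set `{i}`. -/
def sg (n i : ℕ) : List Bool := (List.range n).map fun j => decide (j = i)

/-- The test: whenever the variables outside `A` are fixed, the function `f` becomes constant or
equal to the function `g`. -/
def good (X : List (List Bool)) (f A g : List Bool) : Bool :=
  X.all fun z => (X.all fun x => decide (lk X f (mx A x z) = lk X g (mx A x z))) ||
    (X.all fun x => decide (lk X f (mx A x z) = lk X f z))

/-- The table of a literal (`s = true`: negated). -/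
def litT (X : List (List Bool)) (i : ℕ) (s : Bool) : List Bool :=
  X.map fun x => xor (x.getD i false) s

/-- The table of a conjunction (`o = true`) or a disjunction. -/
def gateT (X : List (List Bool)) (o : Bool) (g h : List Bool) : List Bool :=
  X.map fun x => if o = true then lk X g x && lk X h x else lk X g x || lk X h x

/-! ### Tables of candidates -/

/-- An entry: a set of variables and the table of a function. -/
abbrev Ent : Type := List Bool × List Bool

/-- The candidates for a leaf with an unknown variable outside `D`. -/
def tabV (X : List (List Bool)) (f D : List Bool) (s : Bool) : List Ent :=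
  (List.range D.length).flatMap fun i =>
    if (!(D.getD i false) && good X f (sg D.length i) (litT X i s)) = true then
      [(sg D.length i, litT X i s)] else []

/-- The candidate for a leaf with the variable `i` of `D`. -/
def tabD (X : List (List Bool)) (D : List Bool) (i : ℕ) (s : Bool) : List Ent :=
  if (decide (i < D.length) && D.getD i false) = true then
    [(D.map fun _ => false, litT X i s)] else []

/-- The pairs of candidates of two subformulas with the variable set `A`. -/
def cand (X : List (List Bool)) (f : List Bool) (o : Bool) (t u : List Ent) (A : List Bool) :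
    List (Ent × Ent) :=
  (t.flatMap fun a => u.map fun b => (a, b)).filter fun p =>
    (dj p.1.1 p.2.1 && decide (un p.1.1 p.2.1 = A)) && good X f A (gateT X o p.1.2 p.2.2)

/-- The candidates for a gate: at most one for each set. -/
def tabG (X : List (List Bool)) (f : List Bool) (o : Bool) (t u : List Ent) : List Ent :=
  X.flatMap fun A => (cand X f o t u A).head?.elim [] fun p => [(A, gateT X o p.1.2 p.2.2)]

/-! ### The stack machine -/

/-- The stack: tables of candidates with the number of leaves. -/
abbrev Stk : Type := List (List Ent × ℕ)

/-- Execute a codeword. -/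
def exec (X : List (List Bool)) (f D buf : List Bool) (st : Stk) : Stk :=
  if buf.getD 0 false = false then
    if buf.getD 1 false = false then (tabV X f D (buf.getD 2 false), 1) :: st
    else st.head?.elim st fun b => st.tail.head?.elim st fun a =>
      (tabG X f (buf.getD 2 false) a.1 b.1, a.2 + b.2) :: st.tail.tail
  else (tabD X D (valB buf.tail.tail) (buf.getD 1 false), 1) :: st

/-- Read one bit. -/
def step (X : List (List Bool)) (f D : List Bool) (m : ℕ) (S : List Bool × Stk) (b : Bool) :
    List Bool × Stk :=
  if ((S.1 ++ [b]).getD 0 false = false ∧ (S.1 ++ [b]).length = 3) ∨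
      ((S.1 ++ [b]).getD 0 false = true ∧ (S.1 ++ [b]).length = m + 2) then
    ([], exec X f D (S.1 ++ [b]) S.2)
  else (S.1 ++ [b], S.2)

/-- Run the machine on a bit string. -/
def run (X : List (List Bool)) (f D : List Bool) (m : ℕ) (w : List Bool) : List Bool × Stk :=
  w.foldl (step X f D m) ([], [])

/-- Does the machine find the function `f` with at most `s` leaves? -/
def acc (X : List (List Bool)) (f D : List Bool) (m s : ℕ) (w : List Bool) : Bool :=
  (run X f D m w).2.any fun e => decide (e.2 ≤ s) && e.1.any fun a => decide (a.2 = f)

/-- All bit strings of length `K` times that of the members of `X`. -/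
def pw (X : List (List Bool)) : ℕ → List (List Bool)
  | 0 => [[]]
  | K + 1 => (pw X K).flatMap fun w => X.map fun x => x ++ w

/-- The search for a formula with at most `s` leaves for the function with the table `f`. -/
def search (K : ℕ) (X : List (List Bool)) (f : List Bool) (s : ℕ) : Bool :=
  X.any fun D => (List.range (D.length + 1)).any fun m => (pw X K).any fun w => acc X f D m s w

/-! ### The number of essential variables -/

/-- The number of the variables on which the function with the table `f` depends. -/
def essL (X : List (List Bool)) (f : List Bool) (l : List Bool) : ℕ :=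
  ((List.range l.length).filter fun i => X.any fun x =>
    decide (lk X f (mx (sg l.length i) (x.map fun _ => true) x) ≠
      lk X f (mx (sg l.length i) (x.map fun _ => false) x))).length

/-- `⌊log₂ |f|⌋`, as the length of a list. -/
def lg (f : List Bool) : List Bool := f.length.bits.tail

/-- The assignments of the variables of the table `f`. -/
def asgT (f : List Bool) : List (List Bool) := dbl^[(lg f).length] [[]]

/-- The algorithm. -/
def algo (C : ℕ) (q : ℕ × List Bool × ℕ) : Bool :=
  (decide ((lg q.2.1).length = q.1) && decide ((asgT q.2.1).length = q.2.1.length)) &&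
  (decide ((q.2.2 - essL (asgT q.2.1) q.2.1 (lg q.2.1)) * q.1.bits.length ≤ C * q.1) &&
  ((decide (q.2.1 = q.2.1.map fun _ => false) || decide (q.2.1 = q.2.1.map fun _ => true)) ||
    search (8 * C + 6) (asgT q.2.1) q.2.1 q.2.2))

/-! ### Semantics -/

/-- Formulas without constants: leaves are literals (`s = true`: negated variable `i`), gates are
conjunctions (`o = true`) and disjunctions. -/
inductive Tr : Type
  | lf (i : ℕ) (s : Bool) : Tr
  | nd (o : Bool) (a b : Tr) : Tr

namespace Tr

/-- The value. -/
def ev : Tr → List Bool → Bool
  | lf i s, x => xor (x.getD i false) s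
  | nd o a b, x => if o = true then a.ev x && b.ev x else a.ev x || b.ev x

/-- The variables of the leaves, from left to right. -/
def vs : Tr → List ℕ
  | lf i _ => [i]
  | nd _ a b => a.vs ++ b.vs

end Tr

/-- Skeletons: the variables outside a set `D` are omitted. -/
inductive Sk : Type
  | v (s : Bool) : Sk
  | d (i : ℕ) (s : Bool) : Sk
  | nd (o : Bool) (a b : Sk) : Sk

/-- The skeleton of a formula. -/
def Tr.sk (D : List Bool) : Tr → Sk
  | lf i s => if D.getD i false = true then Sk.d i s else Sk.v s
  | nd o a b => Sk.nd o (a.sk D) (b.sk D)

namespace Sk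

/-- The number of leaves. -/
def lv : Sk → ℕ
  | v _ => 1
  | d _ _ => 1
  | nd _ a b => a.lv + b.lv

/-- All the variables of a skeleton are smaller than `n`. -/
def lt (n : ℕ) : Sk → Prop
  | v _ => True
  | d i _ => i < n
  | nd _ a b => a.lt n ∧ b.lt n

/-- The table of candidates. -/
def tb (X : List (List Bool)) (f D : List Bool) : Sk → List Ent
  | v s => tabV X f D s
  | d i s => tabD X D i s
  | nd o a b => tabG X f o (a.tb X f D) (b.tb X f D)

/-- The lowest `m` bits of a number. -/
def bw (m i : ℕ) : List Bool := (List.range m).map fun j => i.testBit j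

/-- The code. -/
def enc (m : ℕ) : Sk → List Bool
  | v s => [false, false, s]
  | d i s => true :: s :: bw m i
  | nd o a b => a.enc m ++ (b.enc m ++ [false, true, o])

end Sk

/-- The function of a table on Boolean lists. -/
def fnc {n : ℕ} (f : BF n) (x : List Bool) : Bool := f fun i => x.getD i false

/-- The number of variables on which `f` depends. -/
noncomputable def ess {n : ℕ} (f : BF n) : ℕ := by
  classical
  exact (Finset.univ.filter fun i => ∃ x, f (Function.update x i true) ≠
    f (Function.update x i false)).card

/-- The instances of MFSP with threshold at most `C n / (number of binary digits of n)` above the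
number of essential variables. -/
def Close (C n : ℕ) (T : List Bool) (s : ℕ) : Prop :=
  ∃ f : BF n, T = table n f ∧ (s - ess f) * n.bits.length ≤ C * n

/-! ### Statements of the building blocks -/

/-- Assignments. -/
def S_ASG : Prop :=
  (∀ (n : ℕ) (x : List Bool), x ∈ asg n ↔ x.length = n) ∧ (∀ n, (asg n).Nodup) ∧
  (∀ n, (asg n).length = 2 ^ n) ∧
  (∀ (n : ℕ) (f : BF n), table n f = (asg n).map (fnc f)) ∧
  (∀ (n : ℕ) (G : List Bool → Bool) (x : List Bool), x.length = n →
    lk (asg n) ((asg n).map G) x = G x)

/-- Normal forms of formulas. -/
def S_NF : Prop :=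
  (∀ (n : ℕ) (F : Formula n), (∃ b, F.eval = fun _ => b) ∨
    ∃ t : Tr, t.vs.length ≤ F.size ∧ (∀ i ∈ t.vs, i < n) ∧ ∀ x : List Bool, t.ev x = fnc F.eval x) ∧
  (∀ (n : ℕ) (t : Tr), (∀ i ∈ t.vs, i < n) →
    ∃ F : Formula n, F.size = t.vs.length ∧ ∀ x : List Bool, t.ev x = fnc F.eval x)

/-- A formula contains all essential variables. -/
def S_ESS : Prop :=
  ∀ (n : ℕ) (f : BF n) (t : Tr), (∀ i ∈ t.vs, i < n) →
    (∀ x : List Bool, x.length = n → t.ev x = fnc f x) → ess f ≤ t.vs.toFinset.card

/-- The list version of the number of essential variables. -/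
def S_ESSL : Prop :=
  ∀ (n : ℕ) (f : BF n) (l : List Bool), l.length = n →
    essL (asg n) ((asg n).map (fnc f)) l = ess f

/-- Counting of repeated variables. -/
def S_CNT : Prop :=
  ∀ (l : List ℕ), (l.filter fun i => decide (2 ≤ l.count i)).length + 2 * l.toFinset.card ≤
    2 * l.length

/-- The length of the code. -/
def S_LEN : Prop :=
  ∀ (m : ℕ) (D : List Bool) (t : Tr), ((t.sk D).enc m).length ≤
    6 * t.vs.length + m * (t.vs.filter fun i => D.getD i false).length

/-- The machine computes the table of candidates of the coded skeleton. -/
def S_RUN : Prop :=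
  ∀ (X : List (List Bool)) (f D : List Bool) (m : ℕ) (t : Sk) (st : Stk), t.lt (2 ^ m) →
    (t.enc m).foldl (step X f D m) ([], st) = ([], (t.tb X f D, t.lv) :: st)

/-- Padding: the entries of the stack remain. -/
def S_PAD : Prop :=
  ∀ (X : List (List Bool)) (f D : List Bool) (m k : ℕ) (st : Stk) (e : List Ent × ℕ), e ∈ st →
    e ∈ ((List.replicate k true).foldl (step X f D m) ([], st)).2

/-- Soundness: all candidates are computed by formulas with the right number of leaves. -/
def S_SND : Prop :=
  ∀ (n : ℕ) (f D : List Bool) (m : ℕ) (w : List Bool), D.length = n →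
    ∀ e ∈ (run (asg n) f D m w).2, ∀ a ∈ e.1, ∃ t : Tr, t.vs.length = e.2 ∧ (∀ i ∈ t.vs, i < n) ∧
      a.2 = (asg n).map t.ev

/-- Completeness: the table of a formula for `f` in which exactly the variables of `D` occur more
than once contains `f`. -/
def S_CPL : Prop :=
  ∀ (n : ℕ) (G : List Bool → Bool) (D : List Bool) (t : Tr), D.length = n →
    (∀ i ∈ t.vs, i < n) → (∀ i, D.getD i false = true ↔ 2 ≤ t.vs.count i) →
    (∀ x : List Bool, x.length = n → t.ev x = G x) →
    ∃ a ∈ (t.sk D).tb (asg n) ((asg n).map G) D, a.2 = (asg n).map G

/-- Lists of bit strings. -/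
def S_PW : Prop :=
  ∀ (n K : ℕ) (w : List Bool), w ∈ pw (asg n) K ↔ w.length = K * n

/-- The algorithm runs in polynomial time. -/
def S_POLY : Prop := ∀ C : ℕ, Poly (algo C)

/-- The algorithm is correct. -/
def S_COR : Prop :=
  ∀ (C : ℕ) (q : ℕ × List Bool × ℕ), algo C q = true ↔
    MFSP q.1 q.2.1 q.2.2 ∧ Close C q.1 q.2.1 q.2.2

/-- The theorem. -/
def S_MAIN : Prop :=
  ∀ C : ℕ, InPP (fun q : ℕ × List Bool × ℕ => MFSP q.1 q.2.1 q.2.2 ∧ Close C q.1 q.2.1 q.2.2)

end Pool.Agent.H529R2.MQ
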