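import Mathlib
import Pool.Agent.H529R2.MQ.Defs

/-!
Task ESSL (helper804, for the project of helper529): the list version of the number of essential
variables.
-/

namespace Pool.Agent.H529R2.MQ

open Pool.Agent.NPC Pool.Agent.H532R2.MC Pool.Agent.H532R2.MF

theorem ESSL_len (n i : ℕ) (x : List Bool) (b : Bool) (hx : x.length = n) :
    (mx (sg n i) (x.map fun _ => b) x).length = n := by
  simp [mx, sg, hx]

theorem ESSL_get (n i : ℕ) (x : List Bool) (b : Bool) (hx : x.length = n) (j : ℕ) (hj : j < n) :
    (mx (sg n i) (x.map fun _ => b) x).getD j false = if j = i then b else x.getD j false := by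
  have h1 : j < (mx (sg n i) (x.map fun _ => b) x).length := by
    rw [ESSL_len n i x b hx]
    exact hj
  rw [List.getD_eq_getElem _ _ h1, List.getD_eq_getElem _ _ (by omega)]
  simp [mx, sg]

theorem ESSL_fnc {n : ℕ} (f : BF n) (i : Fin n) (x : List Bool) (b : Bool) (hx : x.length = n) :
    fnc f (mx (sg n i) (x.map fun _ => b) x)
      = f (Function.update (fun j : Fin n => x.getD j false) i b) := by
  unfold fnc
  congr 1
  funext j
  rw [ESSL_get n i x b hx j j.2]
  by_cases h : j = i
  · subst h
    simp
  · rw [Function.update_of_ne h, if_neg fun h' => h (Fin.ext h')]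

theorem t_ESSL (h : S_ASG) : S_ESSL := by
  classical
  intro n f l hl
  obtain ⟨hmem, -, -, -, hlk⟩ := h
  have key : ∀ i : Fin n, ((asg n).any fun x =>
      decide (lk (asg n) ((asg n).map (fnc f)) (mx (sg n i) (x.map fun _ => true) x) ≠
        lk (asg n) ((asg n).map (fnc f)) (mx (sg n i) (x.map fun _ => false) x))) = true ↔
      ∃ x : Fin n → Bool, f (Function.update x i true) ≠ f (Function.update x i false) := by
    intro i
    rw [List.any_eq_true]
    constructor
    · rintro ⟨x, hx, h1⟩
      have hx' := (hmem n x).1 hx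
      rw [decide_eq_true_eq, hlk n _ _ (ESSL_len n i x true hx'),
        hlk n _ _ (ESSL_len n i x false hx'), ESSL_fnc f i x true hx',
        ESSL_fnc f i x false hx'] at h1
      exact ⟨_, h1⟩
    · rintro ⟨x, h1⟩
      have hx' : (List.ofFn x).length = n := List.length_ofFn
      refine ⟨List.ofFn x, (hmem n _).2 hx', ?_⟩
      have h2 : (fun j : Fin n => (List.ofFn x).getD j false) = x := by
        funext j
        rw [List.getD_eq_getElem _ _ (by rw [hx']; exact j.2), List.getElem_ofFn]
      rw [decide_eq_true_eq, hlk n _ _ (ESSL_len n i _ true hx'),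
        hlk n _ _ (ESSL_len n i _ false hx'), ESSL_fnc f i _ true hx',
        ESSL_fnc f i _ false hx', h2]
      exact h1
  unfold essL ess
  rw [hl, ← List.toFinset_card_of_nodup (List.nodup_range.filter _),
    ← Finset.card_map Fin.valEmbedding]
  congr 1
  ext k
  rw [List.mem_toFinset, List.mem_filter, List.mem_range, Finset.mem_map]
  constructor
  · rintro ⟨hk, h1⟩
    exact ⟨⟨k, hk⟩, Finset.mem_filter.2 ⟨Finset.mem_univ _, (key ⟨k, hk⟩).1 h1⟩, rfl⟩
  · rintro ⟨i, hi, rfl⟩
    exact ⟨i.2, (key i).2 (Finset.mem_filter.1 hi).2⟩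

end Pool.Agent.H529R2.MQ
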