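import Pool.Agent.H529R2.MQ.Defs

/-! LEN: the length of the code (helper86). -/

namespace Pool.Agent.H529R2.MQ

theorem LEN_bw (m i : ℕ) : (Sk.bw m i).length = m := by
  simp [Sk.bw]

theorem LEN_aux (m : ℕ) (D : List Bool) (t : Tr) : ((t.sk D).enc m).length + 3 ≤
    6 * t.vs.length + m * (t.vs.filter fun i => D.getD i false).length := by
  induction t with
  | lf i s =>
    by_cases h : D.getD i false = true
    · have e1 : (Tr.lf i s).sk D = Sk.d i s := by simp only [Tr.sk, h, if_true]
      have e2 : ((Tr.lf i s).vs.filter fun i => D.getD i false) = [i] := by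
        simp only [Tr.vs]
        rw [List.filter_cons_of_pos (by exact h), List.filter_nil]
      rw [e1, e2]
      simp only [Sk.enc, Tr.vs, List.length_cons, List.length_nil, LEN_bw]
      omega
    · have e1 : (Tr.lf i s).sk D = Sk.v s := by simp only [Tr.sk, h]; rfl
      rw [e1]
      simp only [Sk.enc, Tr.vs, List.length_cons, List.length_nil]
      omega
  | nd o a b iha ihb =>
    have e1 : (Tr.nd o a b).sk D = Sk.nd o (a.sk D) (b.sk D) := rfl
    rw [e1]
    simp only [Sk.enc, Tr.vs, List.length_append, List.length_cons, List.length_nil,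
      List.filter_append, Nat.mul_add]
    omega

theorem t_LEN : S_LEN := by
  intro m D t
  have := LEN_aux m D t
  omega

end Pool.Agent.H529R2.MQ
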