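import Pool.Agent.H529R2.MQ.Defs
import Pool.Agent.NPC.Dec

/-!
# Minimum formula size slightly above the number of variables: the class P (helper873)
-/

namespace Pool.Agent.H529R2.MQ

open Pool.Agent.NPC Pool.Agent.H532R2.MC Pool.Agent.H532R2.MF

theorem t_MAIN (h1 : S_POLY) (h2 : S_COR) : S_MAIN := fun C =>
  inPP_of (h1 C) fun q => (h2 C q).symm

end Pool.Agent.H529R2.MQ
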