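import Pool.Agent.H529R2.MQ.Defs

/-!
Normal forms of formulas.
-/

namespace Pool.Agent.H529R2.MQ

open Pool.Agent.NPC Pool.Agent.H532R2.MC Pool.Agent.H532R2.MF

/-- auxiliary alternative -/
def NF_alt (n : ℕ) (f : BF n) (k : ℕ) : Prop :=
  (∃ b, f = fun _ => b) ∨
    ∃ t : Tr, t.vs.length ≤ k ∧ (∀ i ∈ t.vs, i < n) ∧ ∀ x : List Bool, t.ev x = fnc f x

theorem NF_mono {n : ℕ} {f : BF n} {k l : ℕ} (h : NF_alt n f k) (hkl : k ≤ l) : NF_alt n f l := by
  rcases h with h | ⟨t, h1, h2, h3⟩
  · exact Or.inl h
  · exact Or.inr ⟨t, h1.trans hkl, h2, h3⟩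

theorem NF_gate {n : ℕ} {f g : BF n} {k l : ℕ} (o : Bool) (hf : NF_alt n f k)
    (hg : NF_alt n g l) :
    NF_alt n (fun x => if o = true then f x && g x else f x || g x) (k + l) := by
  rcases hf with ⟨b, hb⟩ | ⟨t, h1, h2, h3⟩
  · subst hb
    cases o <;> cases b
    · have e : (fun x => if false = true then (fun _ => false : BF n) x && g x
          else (fun _ => false : BF n) x || g x) = g := by
        funext x; simp
      rw [e]
      exact NF_mono hg (Nat.le_add_left _ _)
    · left
      exact ⟨true, by funext x; simp⟩
    · left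
      exact ⟨false, by funext x; simp⟩
    · have e : (fun x => if true = true then (fun _ => true : BF n) x && g x
          else (fun _ => true : BF n) x || g x) = g := by
        funext x; simp
      rw [e]
      exact NF_mono hg (Nat.le_add_left _ _)
  · rcases hg with ⟨b, hb⟩ | ⟨u, g1, g2, g3⟩
    · subst hb
      have hf : NF_alt n f k := Or.inr ⟨t, h1, h2, h3⟩
      cases o <;> cases b
      · have e : (fun x => if false = true then f x && (fun _ => false : BF n) x
            else f x || (fun _ => false : BF n) x) = f := by
          funext x; simp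
        rw [e]
        exact NF_mono hf (Nat.le_add_right _ _)
      · left
        exact ⟨true, by funext x; simp⟩
      · left
        exact ⟨false, by funext x; simp⟩
      · have e : (fun x => if true = true then f x && (fun _ => true : BF n) x
            else f x || (fun _ => true : BF n) x) = f := by
          funext x; simp
        rw [e]
        exact NF_mono hf (Nat.le_add_right _ _)
    · right
      refine ⟨Tr.nd o t u, ?_, ?_, ?_⟩
      · unfold Tr.vs
        rw [List.length_append]
        exact add_le_add h1 g1
      · intro i hi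
        unfold Tr.vs at hi
        rcases List.mem_append.1 hi with hi | hi
        · exact h2 i hi
        · exact g2 i hi
      · intro x
        unfold Tr.ev
        rw [h3 x, g3 x]
        rfl

theorem NF_one {n : ℕ} (F : Formula n) : NF_alt n F.eval F.size := by
  induction F with
  | const b => exact Or.inl ⟨b, rfl⟩
  | var i =>
    right
    refine ⟨Tr.lf i false, by simp [Tr.vs, Formula.size], by simp [Tr.vs], fun x => ?_⟩
    simp [Tr.ev, fnc, Formula.eval]
  | neg i =>
    right
    refine ⟨Tr.lf i true, by simp [Tr.vs, Formula.size], by simp [Tr.vs], fun x => ?_⟩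
    simp [Tr.ev, fnc, Formula.eval]
  | and F G hF hG =>
    have h := NF_gate true hF hG
    have e : (fun x => if true = true then F.eval x && G.eval x else F.eval x || G.eval x) =
        (F.and G).eval := by
      funext x; simp [Formula.eval]
    rw [e] at h
    exact h
  | or F G hF hG =>
    have h := NF_gate false hF hG
    have e : (fun x => if false = true then F.eval x && G.eval x else F.eval x || G.eval x) =
        (F.or G).eval := by
      funext x; simp [Formula.eval]
    rw [e] at h
    exact h

theorem NF_two (n : ℕ) (t : Tr) : (∀ i ∈ t.vs, i < n) →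
    ∃ F : Formula n, F.size = t.vs.length ∧ ∀ x : List Bool, t.ev x = fnc F.eval x := by
  induction t with
  | lf i s =>
    intro h
    have hi : i < n := h i (by simp [Tr.vs])
    cases s
    · refine ⟨Formula.var ⟨i, hi⟩, by simp [Tr.vs, Formula.size], fun x => ?_⟩
      simp [Tr.ev, fnc, Formula.eval]
    · refine ⟨Formula.neg ⟨i, hi⟩, by simp [Tr.vs, Formula.size], fun x => ?_⟩
      simp [Tr.ev, fnc, Formula.eval]
  | nd o a b ha hb =>
    intro h
    obtain ⟨F, hF, eF⟩ := ha (fun i hi => h i (by
      unfold Tr.vs
      exact List.mem_append_left _ hi))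
    obtain ⟨G, hG, eG⟩ := hb (fun i hi => h i (by
      unfold Tr.vs
      exact List.mem_append_right _ hi))
    cases o
    · refine ⟨Formula.or F G, ?_, fun x => ?_⟩
      · simp [Tr.vs, Formula.size, hF, hG]
      · simp [Tr.ev, fnc, Formula.eval, eF, eG]
    · refine ⟨Formula.and F G, ?_, fun x => ?_⟩
      · simp [Tr.vs, Formula.size, hF, hG]
      · simp [Tr.ev, fnc, Formula.eval, eF, eG]

/-- Normal forms of formulas. -/
theorem t_NF : S_NF :=
  ⟨fun _ F => NF_one F, NF_two⟩

end Pool.Agent.H529R2.MQ
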