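import Pool.Agent.H529R2.MQ.Defs

/-! Task PAD: padding with ones. -/

namespace Pool.Agent.H529R2.MQ

theorem PAD_head (l : List Bool) (h : l = [] ∨ l.getD 0 false = true) :
    (l ++ [true]).getD 0 false = true := by
  cases l with
  | nil => rfl
  | cons a l =>
    rcases h with h | h
    · cases h
    · simpa using h

theorem PAD_step (X : List (List Bool)) (f D : List Bool) (m : ℕ) (S : List Bool × Stk)
    (e : List Ent × ℕ) (he : e ∈ S.2) (h : S.1 = [] ∨ S.1.getD 0 false = true) :
    e ∈ (step X f D m S true).2 ∧
      ((step X f D m S true).1 = [] ∨ (step X f D m S true).1.getD 0 false = true) := by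
  have h1 := PAD_head S.1 h
  unfold step
  split_ifs with hc
  · refine ⟨?_, Or.inl rfl⟩
    show e ∈ exec X f D (S.1 ++ [true]) S.2
    unfold exec
    rw [if_neg (by rw [h1]; decide)]
    exact List.mem_cons_of_mem _ he
  · exact ⟨he, Or.inr h1⟩

theorem PAD_fold (X : List (List Bool)) (f D : List Bool) (m k : ℕ) :
    ∀ (S : List Bool × Stk) (e : List Ent × ℕ), e ∈ S.2 →
      (S.1 = [] ∨ S.1.getD 0 false = true) →
      e ∈ ((List.replicate k true).foldl (step X f D m) S).2 := by
  induction k with
  | zero => intro S e he _; exact he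
  | succ k ih =>
    intro S e he h
    rw [List.replicate_succ, List.foldl_cons]
    obtain ⟨h1, h2⟩ := PAD_step X f D m S e he h
    exact ih _ e h1 h2

theorem t_PAD : S_PAD := by
  intro X f D m k st e he
  exact PAD_fold X f D m k ([], st) e he (Or.inl rfl)

end Pool.Agent.H529R2.MQ
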