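import Pool.Agent.H529R2.MQ.Defs

set_option autoImplicit false

namespace Pool.Agent.H529R2.MQ

open Pool.Agent.NPC Pool.Agent.H532R2.MC Pool.Agent.H532R2.MF

/-- the bound of the entries -/
def POLY2_E (X : List (List Bool)) (D : List Bool) : ℕ :=
  sz X + 4 * X.length + 4 * D.length + 10

/-- the bound of the tables -/
def POLY2_B (X : List (List Bool)) (D : List Bool) : ℕ :=
  (X.length + D.length + 1) * (POLY2_E X D + 1) + 1

lemma POLY2_tab {X : List (List Bool)} {D : List Bool} {l : List Ent}
    (h1 : l.length ≤ X.length + D.length + 1) (h2 : ∀ a ∈ l, sz a ≤ POLY2_E X D) :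
    sz l ≤ POLY2_B X D := by
  refine (sz_le_length_mul l _ h2).trans ?_
  unfold POLY2_B
  gcongr

lemma POLY2_flat {β γ : Type} (l : List β) (F : β → List γ) (h : ∀ b ∈ l, (F b).length ≤ 1) :
    (l.flatMap F).length ≤ l.length := by
  induction l with
  | nil => simp
  | cons b l ih =>
    rw [List.flatMap_cons, List.length_append, List.length_cons]
    have h1 := h b (by simp)
    have h2 := ih fun x hx => h x (by simp [hx])
    omega

lemma POLY2_tabV (X : List (List Bool)) (f D : List Bool) (s : Bool) :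
    sz (tabV X f D s) ≤ POLY2_B X D := by
  apply POLY2_tab
  · unfold tabV
    refine (POLY2_flat _ _ fun i _ => ?_).trans ?_
    · split_ifs <;> simp
    · rw [List.length_range]
      omega
  · intro a ha
    unfold tabV at ha
    rw [List.mem_flatMap] at ha
    obtain ⟨i, _, hi⟩ := ha
    split_ifs at hi
    · rw [List.mem_singleton] at hi
      subst hi
      rw [sz_pair]
      have h1 := sz_listBool_le (sg D.length i)
      have h2 := sz_listBool_le (litT X i s)
      have h3 : (sg D.length i).length = D.length := by simp [sg]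
      have h4 : (litT X i s).length = X.length := by simp [litT]
      unfold POLY2_E
      omega
    · simp at hi

lemma POLY2_tabD (X : List (List Bool)) (D : List Bool) (i : ℕ) (s : Bool) :
    sz (tabD X D i s) ≤ POLY2_B X D := by
  apply POLY2_tab
  · unfold tabD
    split_ifs <;> simp
  · intro a ha
    unfold tabD at ha
    split_ifs at ha
    · rw [List.mem_singleton] at ha
      subst ha
      rw [sz_pair]
      have h1 := sz_listBool_le (D.map fun _ => false)
      have h2 := sz_listBool_le (litT X i s)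
      have h3 : (D.map fun _ => false).length = D.length := by simp
      have h4 : (litT X i s).length = X.length := by simp [litT]
      unfold POLY2_E
      omega
    · simp at ha

lemma POLY2_tabG (X : List (List Bool)) (f D : List Bool) (o : Bool) (t u : List Ent) :
    sz (tabG X f o t u) ≤ POLY2_B X D := by
  apply POLY2_tab
  · unfold tabG
    refine (POLY2_flat _ _ fun A _ => ?_).trans ?_
    · cases (cand X f o t u A).head? <;> simp
    · omega
  · intro a ha
    unfold tabG at ha
    rw [List.mem_flatMap] at ha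
    obtain ⟨A, hA, hi⟩ := ha
    cases hc : (cand X f o t u A).head? with
    | none => rw [hc] at hi; simp at hi
    | some p =>
      rw [hc, Option.elim_some, List.mem_singleton] at hi
      subst hi
      rw [sz_pair]
      have h1 := sz_le_of_mem hA
      have h2 := sz_listBool_le (gateT X o p.1.2 p.2.2)
      have h4 : (gateT X o p.1.2 p.2.2).length = X.length := by simp [gateT]
      unfold POLY2_E
      omega

/-- the invariant -/
def POLY2_I (B k : ℕ) (S : List Bool × Stk) : Prop :=
  S.1.length ≤ k ∧ S.2.length ≤ k ∧ (S.2.map Prod.snd).sum ≤ k ∧ ∀ e ∈ S.2, sz e.1 ≤ B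

lemma POLY2_exec (X : List (List Bool)) (f D buf : List Bool) (st : Stk) (k : ℕ)
    (h1 : st.length ≤ k) (h2 : (st.map Prod.snd).sum ≤ k) (h3 : ∀ e ∈ st, sz e.1 ≤ POLY2_B X D) :
    (exec X f D buf st).length ≤ k + 1 ∧ ((exec X f D buf st).map Prod.snd).sum ≤ k + 1 ∧
      ∀ e ∈ exec X f D buf st, sz e.1 ≤ POLY2_B X D := by
  unfold exec
  split_ifs with h4 h5
  · refine ⟨by simpa using h1, by simp only [List.map_cons, List.sum_cons]; omega, ?_⟩
    intro e he
    rcases List.mem_cons.1 he with rfl | he
    · exact POLY2_tabV X f D _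
    · exact h3 e he
  · rcases st with _ | ⟨b, _ | ⟨a, r⟩⟩
    · simp
    · simp only [List.head?_cons, Option.elim_some, List.tail_cons, List.head?_nil,
        Option.elim_none]
      exact ⟨by omega, by omega, h3⟩
    · simp only [List.head?_cons, Option.elim_some, List.tail_cons]
      simp only [List.length_cons] at h1
      simp only [List.map_cons, List.sum_cons] at h2
      refine ⟨by simp only [List.length_cons]; omega,
        by simp only [List.map_cons, List.sum_cons]; omega, ?_⟩
      intro e he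
      rcases List.mem_cons.1 he with rfl | he
      · exact POLY2_tabG X f D _ _ _
      · exact h3 e (by simp [he])
  · refine ⟨by simpa using h1, by simp only [List.map_cons, List.sum_cons]; omega, ?_⟩
    intro e he
    rcases List.mem_cons.1 he with rfl | he
    · exact POLY2_tabD X D _ _
    · exact h3 e he

lemma POLY2_step (X : List (List Bool)) (f D : List Bool) (m : ℕ) (S : List Bool × Stk) (b : Bool)
    (k : ℕ) (h : POLY2_I (POLY2_B X D) k S) :
    POLY2_I (POLY2_B X D) (k + 1) (step X f D m S b) := by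
  obtain ⟨h1, h2, h3, h4⟩ := h
  unfold step
  split_ifs with h5
  · obtain ⟨g1, g2, g3⟩ := POLY2_exec X f D (S.1 ++ [b]) S.2 k h2 h3 h4
    exact ⟨by simp, g1, g2, g3⟩
  · exact ⟨by simpa using h1, by simp only; omega, by simp only; omega, h4⟩

lemma POLY2_fold (X : List (List Bool)) (f D : List Bool) (m : ℕ) (w : List Bool) :
    ∀ (S : List Bool × Stk) (k : ℕ), POLY2_I (POLY2_B X D) k S →
    POLY2_I (POLY2_B X D) (k + w.length) (w.foldl (step X f D m) S) := by
  induction w with
  | nil => intro S k h; exact h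
  | cons b w ih =>
    intro S k h
    have h1 := ih _ _ (POLY2_step X f D m S b k h)
    rw [List.foldl_cons, List.length_cons]
    rwa [show k + (w.length + 1) = k + 1 + w.length by omega]

lemma POLY2_le_sum (l : Stk) (e : List Ent × ℕ) (he : e ∈ l) : e.2 ≤ (l.map Prod.snd).sum :=
  List.single_le_sum (by simp) _ (List.mem_map.2 ⟨e, he, rfl⟩)

lemma POLY2_sz {B k : ℕ} {S : List Bool × Stk} (h : POLY2_I B k S) :
    sz S ≤ (4 * k + 1) + (k * ((B + (4 * k + 1) + 1) + 1) + 1) + 1 := by
  obtain ⟨h1, h2, h3, h4⟩ := h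
  have e1 : sz S = sz S.1 + sz S.2 + 1 := sz_pair S.1 S.2
  have e2 := sz_listBool_le S.1
  have e3 : sz S.2 ≤ k * ((B + (4 * k + 1) + 1) + 1) + 1 := by
    refine (sz_le_length_mul S.2 (B + (4 * k + 1) + 1) ?_).trans ?_
    · intro e he
      have g1 : sz e = sz e.1 + sz e.2 + 1 := sz_pair e.1 e.2
      have g2 := h4 e he
      have g3 := sz_nat_le e.2
      have g4 : e.2.size ≤ e.2 := Nat.size_le.2 Nat.lt_two_pow_self
      have g5 := POLY2_le_sum _ _ he
      omega
    · gcongr
  omega

lemma POLY2_foldl {α β σ : Type} [TEnc α] [TEnc β] [TEnc σ] {l : α → List β} {s : α → σ}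
    {F : α → σ → β → σ} (hl : Poly l) (hs : Poly s)
    (hF : Poly (fun p : α × σ × β => F p.1 p.2.1 p.2.2)) (q : Polynomial ℕ)
    (hq : ∀ a, ∀ k ≤ (l a).length, sz (((l a).take k).foldl (F a) (s a)) ≤ q.eval (sz a)) :
    Poly (fun a => (l a).foldl (F a) (s a)) := Poly.foldl hl hs hF q hq

/-- the polynomial -/
noncomputable def POLY2_q : Polynomial ℕ :=
  (4 * Polynomial.X + 1) + (Polynomial.X * ((((2 * Polynomial.X + 1) *
    (9 * Polynomial.X + 11) + 1) + (4 * Polynomial.X + 1) + 1) + 1) + 1) + 1

lemma POLY2_q_eval (N : ℕ) : POLY2_q.eval N =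
    (4 * N + 1) + (N * ((((2 * N + 1) * (9 * N + 11) + 1) + (4 * N + 1) + 1) + 1) + 1) + 1 := by
  simp only [POLY2_q, Polynomial.eval_add, Polynomial.eval_mul, Polynomial.eval_X,
    Polynomial.eval_one, Polynomial.eval_ofNat]

/-- the inputs -/
abbrev POLY2_T : Type := (List (List Bool) × List Bool × List Bool × ℕ) × List Bool

/-- the step function -/
def POLY2_F (p : POLY2_T) (s : List Bool × Stk) (b : Bool) : List Bool × Stk :=
  step p.1.1 p.1.2.1 p.1.2.2.1 p.1.2.2.2 s b

lemma POLY2_hq (a : POLY2_T) (k : ℕ) :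
    sz ((a.2.take k).foldl (POLY2_F a) (([], []) : List Bool × Stk)) ≤ POLY2_q.eval (sz a) := by
  obtain ⟨⟨X, f, D, m⟩, w⟩ := a
  have h0 : POLY2_I (POLY2_B X D) 0 (([], []) : List Bool × Stk) := by
    refine ⟨by simp, by simp, by simp, by simp⟩
  have h1 := POLY2_fold X f D m (w.take k) _ _ h0
  have h2 := POLY2_sz h1
  obtain ⟨N, hN⟩ : ∃ N, N = sz (((X, f, D, m), w) : POLY2_T) := ⟨_, rfl⟩
  rw [← hN, POLY2_q_eval]
  simp only [sz_pair] at hN
  have g1 := length_lt_sz X
  have g2 := length_lt_sz D
  have g3 := length_lt_sz w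
  have g4 : 0 + (w.take k).length ≤ N := by
    rw [List.length_take]
    have : min k w.length ≤ w.length := min_le_right _ _
    omega
  have g5 : POLY2_B X D ≤ (2 * N + 1) * (9 * N + 11) + 1 := by
    unfold POLY2_B POLY2_E
    have a1 : X.length + D.length + 1 ≤ 2 * N + 1 := by omega
    have a2 : sz X + 4 * X.length + 4 * D.length + 10 + 1 ≤ 9 * N + 11 := by omega
    exact Nat.add_le_add_right (Nat.mul_le_mul a1 a2) 1
  refine h2.trans ?_
  gcongr

set_option maxHeartbeats 4000000 in
theorem poly_run {α : Type} [TEnc α] (hstep : Poly (fun p : (List (List Bool) × List Bool ×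
      List Bool × ℕ) × (List Bool × Stk) × Bool =>
      step p.1.1 p.1.2.1 p.1.2.2.1 p.1.2.2.2 p.2.1 p.2.2))
    {X : α → List (List Bool)} {f D w : α → List Bool} {m : α → ℕ} (hX : Poly X) (hf : Poly f)
    (hD : Poly D) (hm : Poly m) (hw : Poly w) :
    Poly (fun a => run (X a) (f a) (D a) (m a) (w a)) := by
  have p1 : Poly (fun p : POLY2_T => p.2) := Poly.snd Poly.id
  have p2 : Poly (fun _ : POLY2_T => (([], []) : List Bool × Stk)) := NPC.Poly.const _
  have p3 : Poly (fun q : POLY2_T × (List Bool × Stk) × Bool => ((q.1.1, q.2) :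
      (List (List Bool) × List Bool × List Bool × ℕ) × (List Bool × Stk) × Bool)) :=
    Poly.pair (Poly.fst (Poly.fst Poly.id)) (Poly.snd Poly.id)
  have p4 : Poly (fun q : POLY2_T × (List Bool × Stk) × Bool => POLY2_F q.1 q.2.1 q.2.2) :=
    hstep.comp p3
  have P0 : Poly (fun p : POLY2_T => p.2.foldl (POLY2_F p) (([], []) : List Bool × Stk)) :=
    POLY2_foldl p1 p2 p4 POLY2_q (fun a k _ => POLY2_hq a k)
  have P1 : Poly (fun a => (((X a, f a, D a, m a), w a) : POLY2_T)) :=
    Poly.pair (Poly.pair hX (Poly.pair hf (Poly.pair hD hm))) hw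
  exact (P0.comp P1).congr fun a => rfl

end Pool.Agent.H529R2.MQ
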