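import Pool.Agent.H529R2.MQ.POLY1
import Pool.Agent.H529R2.MQ.POLY2

/-! # Task POLY: the algorithm runs in polynomial time -/

namespace Pool.Agent.H529R2.MQ

open Pool.Agent.NPC

theorem POLY_step0 : Poly (fun p : (List (List Bool) × List Bool × List Bool × ℕ) ×
    (List Bool × Stk) × Bool =>
      step p.1.1 p.1.2.1 p.1.2.2.1 p.1.2.2.2 p.2.1 p.2.2) :=
  poly_step (by fun_prop) (by fun_prop) (by fun_prop) (by fun_prop) (by fun_prop) (by fun_prop)

theorem POLY_run {α : Type} [TEnc α] {X : α → List (List Bool)} {f D w : α → List Bool}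
    {m : α → ℕ} (hX : Poly X) (hf : Poly f) (hD : Poly D) (hm : Poly m) (hw : Poly w) :
    Poly (fun a => run (X a) (f a) (D a) (m a) (w a)) :=
  poly_run POLY_step0 hX hf hD hm hw

theorem POLY_acc {α : Type} [TEnc α] {X : α → List (List Bool)} {f D w : α → List Bool}
    {m s : α → ℕ} (hX : Poly X) (hf : Poly f) (hD : Poly D) (hm : Poly m) (hs : Poly s)
    (hw : Poly w) : Poly (fun a => acc (X a) (f a) (D a) (m a) (s a) (w a)) := by
  have hr := POLY_run hX hf hD hm hw
  unfold acc
  fun_prop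

theorem POLY_search {α : Type} [TEnc α] (K : ℕ) {X : α → List (List Bool)} {f : α → List Bool}
    {s : α → ℕ} (hX : Poly X) (hf : Poly f) (hs : Poly s) :
    Poly (fun a => search K (X a) (f a) (s a)) := by
  unfold search
  have h1 : Poly (fun q : (((α × List Bool) × ℕ) × List Bool) =>
      acc (X q.1.1.1) (f q.1.1.1) q.1.1.2 q.1.2 (s q.1.1.1) q.2) :=
    POLY_acc (by fun_prop) (by fun_prop) (by fun_prop) (by fun_prop) (by fun_prop) (by fun_prop)
  have h2 : Poly (fun q : ((α × List Bool) × ℕ) => pw (X q.1.1) K) :=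
    poly_pw (by fun_prop) K
  have h3 : Poly (fun q : ((α × List Bool) × ℕ) =>
      (pw (X q.1.1) K).any fun w => acc (X q.1.1) (f q.1.1) q.1.2 q.2 (s q.1.1) w) :=
    Poly.any h2 h1
  have h4 : Poly (fun q : α × List Bool => List.range (q.2.length + 1)) :=
    (Poly.range_length (l := fun q : α × List Bool => false :: q.2) (by fun_prop)).congr
      fun q => by simp
  have h5 : Poly (fun q : α × List Bool => (List.range (q.2.length + 1)).any fun m =>
      (pw (X q.1) K).any fun w => acc (X q.1) (f q.1) q.2 m (s q.1) w) :=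
    Poly.any h4 h3
  exact Poly.any hX h5

theorem t_POLY : S_POLY := by
  intro C
  have hX : Poly (fun q : ℕ × List Bool × ℕ => asgT q.2.1) := poly_asgT (by fun_prop)
  have hl : Poly (fun q : ℕ × List Bool × ℕ => lg q.2.1) := poly_lg (by fun_prop)
  have he : Poly (fun q : ℕ × List Bool × ℕ => essL (asgT q.2.1) q.2.1 (lg q.2.1)) :=
    poly_essL hX (by fun_prop) hl
  have hs : Poly (fun q : ℕ × List Bool × ℕ => search (8 * C + 6) (asgT q.2.1) q.2.1 q.2.2) :=
    POLY_search _ hX (by fun_prop) (by fun_prop)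
  have hb : Poly (fun q : ℕ × List Bool × ℕ => q.1.bits) :=
    Poly.natBits (Poly.fst Poly.id)
  unfold algo
  fun_prop

end Pool.Agent.H529R2.MQ
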