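import Pool.Agent.H529R2.MQ.Defs

namespace Pool.Agent.H529R2.MQ

theorem t_PW (h : S_ASG) : S_PW := by
  intro n K
  induction K with
  | zero =>
    intro w
    simp only [pw, List.mem_singleton, Nat.zero_mul, List.length_eq_zero_iff]
  | succ K ih =>
    intro w
    simp only [pw, List.mem_flatMap, List.mem_map]
    constructor
    · rintro ⟨w', hw', x, hx, rfl⟩
      rw [List.length_append, (h.1 n x).1 hx, (ih w').1 hw', Nat.succ_mul, Nat.add_comm]
    · intro hw
      refine ⟨w.drop n, (ih _).2 ?_, w.take n, (h.1 n _).2 ?_, List.take_append_drop n w⟩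
      · rw [List.length_drop, hw, Nat.succ_mul, Nat.add_sub_cancel]
      · rw [List.length_take, hw, Nat.succ_mul]
        exact min_eq_left (Nat.le_add_left _ _)

end Pool.Agent.H529R2.MQ
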