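import Pool.Agent.H529R2.MQ.Defs

/-!
# RUN: the machine reads the code
-/

namespace Pool.Agent.H529R2.MQ

open Pool.Agent.NPC Pool.Agent.H532R2.MC Pool.Agent.H532R2.MF

theorem RUN_bw_length (m i : ℕ) : (Sk.bw m i).length = m := by
  simp [Sk.bw]

theorem RUN_bw (m : ℕ) : ∀ i, i < 2 ^ m → valB (Sk.bw m i) = i := by
  induction m with
  | zero =>
    intro i hi
    have h0 : i = 0 := by
      rw [pow_zero] at hi
      omega
    subst h0
    rfl
  | succ m ih =>
    intro i hi
    have h : Sk.bw (m + 1) i = i.testBit 0 :: Sk.bw m (i / 2) := by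
      unfold Sk.bw
      rw [List.range_succ_eq_map, List.map_cons, List.map_map]
      congr 1
      apply List.map_congr_left
      intro j _
      show i.testBit (j + 1) = (i / 2).testBit j
      rw [Nat.testBit_succ]
    have h2 : i / 2 < 2 ^ m := by
      rw [pow_succ] at hi
      omega
    rw [h, valB_cons, ih (i / 2) h2, Nat.testBit_zero]
    rcases Nat.mod_two_eq_zero_or_one i with h3 | h3
    · simp [h3]
      omega
    · simp [h3]
      omega

theorem RUN_step_not (X : List (List Bool)) (f D : List Bool) (m : ℕ) (r : List Bool) (b : Bool)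
    (st : Stk) (h : r.length + 2 ≠ m + 2) :
    step X f D m (true :: r, st) b = (true :: (r ++ [b]), st) := by
  unfold step
  rw [if_neg]
  · simp
  · rintro (⟨h1, _⟩ | ⟨_, h1⟩)
    · simp at h1
    · apply h
      simp at h1
      omega

theorem RUN_step_yes (X : List (List Bool)) (f D : List Bool) (m : ℕ) (r : List Bool) (b : Bool)
    (st : Stk) (h : r.length + 2 = m + 2) :
    step X f D m (true :: r, st) b = ([], exec X f D (true :: (r ++ [b])) st) := by
  unfold step
  rw [if_pos]
  · simp
  · right
    refine ⟨by simp, ?_⟩
    simp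
    omega

theorem RUN_fold (X : List (List Bool)) (f D : List Bool) (m : ℕ) (st : Stk) :
    ∀ (q r : List Bool), q ≠ [] → r.length + 1 + q.length = m + 2 →
      q.foldl (step X f D m) (true :: r, st) = ([], exec X f D (true :: (r ++ q)) st) := by
  intro q
  induction q with
  | nil => intro r h _; exact absurd rfl h
  | cons b q ih =>
    intro r _ hl
    rw [List.foldl_cons]
    rw [List.length_cons] at hl
    by_cases hq : q = []
    · subst hq
      rw [List.length_nil] at hl
      rw [RUN_step_yes X f D m r b st (by omega), List.foldl_nil]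
    · have hq' : 0 < q.length := List.length_pos_iff.2 hq
      rw [RUN_step_not X f D m r b st (by omega), ih (r ++ [b]) hq (by simp; omega)]
      simp

theorem t_RUN : S_RUN := by
  intro X f D m t
  induction t with
  | v s =>
    intro st _
    simp [Sk.enc, step, exec, Sk.tb, Sk.lv]
  | d i s =>
    intro st hi
    have hi' : i < 2 ^ m := hi
    show (true :: s :: Sk.bw m i).foldl (step X f D m) ([], st) = _
    rw [List.foldl_cons]
    have h1 : step X f D m ([], st) true = ([true], st) := by
      unfold step
      rw [if_neg]
      · rfl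
      · rintro (⟨h1, _⟩ | ⟨_, h1⟩)
        · simp at h1
        · simp at h1
    rw [h1, RUN_fold X f D m st (s :: Sk.bw m i) [] (by simp) (by
      rw [List.length_cons, RUN_bw_length, List.length_nil]
      omega)]
    simp only [List.nil_append, Sk.tb, Sk.lv]
    congr 1
    unfold exec
    simp [RUN_bw m i hi']
  | nd o a b iha ihb =>
    intro st ht
    have ht' : a.lt (2 ^ m) ∧ b.lt (2 ^ m) := ht
    show (a.enc m ++ (b.enc m ++ [false, true, o])).foldl (step X f D m) ([], st) = _
    rw [List.foldl_append, iha st ht'.1, List.foldl_append, ihb _ ht'.2]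
    simp [step, exec, Sk.tb, Sk.lv]

end Pool.Agent.H529R2.MQ
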