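import Pool.Agent.H529R2.MQ.Defs

/-! Task SND: soundness of the candidates. -/

namespace Pool.Agent.H529R2.MQ

open Pool.Agent.NPC Pool.Agent.H532R2.MC Pool.Agent.H532R2.MF

/-- the invariant of the stack -/
def SND_Inv (n : ℕ) (st : Stk) : Prop :=
  ∀ e ∈ st, ∀ a ∈ e.1, ∃ t : Tr, t.vs.length = e.2 ∧ (∀ i ∈ t.vs, i < n) ∧
    a.2 = (asg n).map t.ev

theorem SND_lit (n : ℕ) (i : ℕ) (s : Bool) (hi : i < n) :
    ∃ t : Tr, t.vs.length = 1 ∧ (∀ j ∈ t.vs, j < n) ∧ litT (asg n) i s = (asg n).map t.ev := by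
  refine ⟨Tr.lf i s, rfl, ?_, rfl⟩
  intro j hj
  have : j = i := by simpa [Tr.vs] using hj
  rw [this]
  exact hi

theorem SND_tabV (n : ℕ) (f D : List Bool) (hD : D.length = n) (s : Bool) (a : Ent)
    (ha : a ∈ tabV (asg n) f D s) : ∃ t : Tr, t.vs.length = 1 ∧ (∀ j ∈ t.vs, j < n) ∧
      a.2 = (asg n).map t.ev := by
  unfold tabV at ha
  obtain ⟨i, hi, ha⟩ := List.mem_flatMap.1 ha
  rw [List.mem_range, hD] at hi
  split_ifs at ha with h
  · rw [List.mem_singleton] at ha
    rw [ha]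
    exact SND_lit n i s hi
  · simp at ha

theorem SND_tabD (n : ℕ) (D : List Bool) (hD : D.length = n) (i : ℕ) (s : Bool) (a : Ent)
    (ha : a ∈ tabD (asg n) D i s) : ∃ t : Tr, t.vs.length = 1 ∧ (∀ j ∈ t.vs, j < n) ∧
      a.2 = (asg n).map t.ev := by
  unfold tabD at ha
  split_ifs at ha with h
  · rw [Bool.and_eq_true, decide_eq_true_eq, hD] at h
    rw [List.mem_singleton] at ha
    rw [ha]
    exact SND_lit n i s h.1
  · simp at ha

theorem SND_gate (h : S_ASG) (n : ℕ) (o : Bool) (t u : Tr) :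
    gateT (asg n) o ((asg n).map t.ev) ((asg n).map u.ev) = (asg n).map (Tr.nd o t u).ev := by
  unfold gateT
  apply List.map_congr_left
  intro x hx
  have hx' : x.length = n := (h.1 n x).1 hx
  rw [h.2.2.2.2 n t.ev x hx', h.2.2.2.2 n u.ev x hx']
  rfl

theorem SND_tabG (h : S_ASG) (n : ℕ) (f : List Bool) (o : Bool) (T U : List Ent) (k l : ℕ)
    (hT : ∀ a ∈ T, ∃ t : Tr, t.vs.length = k ∧ (∀ i ∈ t.vs, i < n) ∧ a.2 = (asg n).map t.ev)
    (hU : ∀ a ∈ U, ∃ t : Tr, t.vs.length = l ∧ (∀ i ∈ t.vs, i < n) ∧ a.2 = (asg n).map t.ev)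
    (a : Ent) (ha : a ∈ tabG (asg n) f o T U) :
    ∃ t : Tr, t.vs.length = k + l ∧ (∀ i ∈ t.vs, i < n) ∧ a.2 = (asg n).map t.ev := by
  unfold tabG at ha
  obtain ⟨A, -, ha⟩ := List.mem_flatMap.1 ha
  cases hc : (cand (asg n) f o T U A).head? with
  | none => rw [hc] at ha; simp at ha
  | some p =>
    rw [hc] at ha
    have ha' : a = (A, gateT (asg n) o p.1.2 p.2.2) := by simpa using ha
    have hp : p ∈ cand (asg n) f o T U A := List.mem_of_mem_head? hc
    unfold cand at hp
    obtain ⟨hp, -⟩ := List.mem_filter.1 hp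
    obtain ⟨b, hb, hp⟩ := List.mem_flatMap.1 hp
    obtain ⟨c, hc', rfl⟩ := List.mem_map.1 hp
    obtain ⟨t, ht1, ht2, ht3⟩ := hT b hb
    obtain ⟨u, hu1, hu2, hu3⟩ := hU c hc'
    refine ⟨Tr.nd o t u, ?_, ?_, ?_⟩
    · show (t.vs ++ u.vs).length = _
      rw [List.length_append, ht1, hu1]
    · intro i hi
      rcases List.mem_append.1 (show i ∈ t.vs ++ u.vs from hi) with h1 | h1
      · exact ht2 i h1
      · exact hu2 i h1
    · rw [ha', ← SND_gate h, ← ht3, ← hu3]

theorem SND_exec (h : S_ASG) (n : ℕ) (f D buf : List Bool) (hD : D.length = n) (st : Stk)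
    (hst : SND_Inv n st) : SND_Inv n (exec (asg n) f D buf st) := by
  have hcons : ∀ (T : List Ent) (k : ℕ) (r : Stk), (∀ a ∈ T, ∃ t : Tr, t.vs.length = k ∧
      (∀ i ∈ t.vs, i < n) ∧ a.2 = (asg n).map t.ev) → SND_Inv n r → SND_Inv n ((T, k) :: r) := by
    intro T k r hT hr e he
    rcases List.mem_cons.1 he with rfl | he
    · exact hT
    · exact hr e he
  unfold exec
  split_ifs with h1 h2
  · exact hcons _ _ _ (fun a ha => SND_tabV n f D hD _ a ha) hst
  · match st, hst with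
    | [], hst => exact hst
    | [b], hst => exact hst
    | b :: a :: r, hst =>
      exact hcons _ _ _ (fun x hx => SND_tabG h n f _ a.1 b.1 a.2 b.2
        (fun y hy => hst a (by simp) y hy) (fun y hy => hst b (by simp) y hy) x hx)
        (fun e he => hst e (by
          have he' : e ∈ r := he
          simp [he']))
  · exact hcons _ _ _ (fun a ha => SND_tabD n D hD _ _ a ha) hst

theorem t_SND (h : S_ASG) : S_SND := by
  intro n f D m w hD
  have key : ∀ (w : List Bool) (S : List Bool × Stk), SND_Inv n S.2 →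
      SND_Inv n (w.foldl (step (asg n) f D m) S).2 := by
    intro w
    induction w with
    | nil => intro S hS; exact hS
    | cons b w ih =>
      intro S hS
      apply ih
      unfold step
      split_ifs with h1
      · exact SND_exec h n f D _ hD _ hS
      · exact hS
  exact key w ([], []) (fun e he => by simp at he)

end Pool.Agent.H529R2.MQ
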