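import Pool.Agent.H529R2.MQ.ASG
import Pool.Agent.H529R2.MQ.NF
import Pool.Agent.H529R2.MQ.ESS
import Pool.Agent.H529R2.MQ.ESSL
import Pool.Agent.H529R2.MQ.CNT
import Pool.Agent.H529R2.MQ.LEN
import Pool.Agent.H529R2.MQ.RUN
import Pool.Agent.H529R2.MQ.PAD
import Pool.Agent.H529R2.MQ.SND
import Pool.Agent.H529R2.MQ.PW
import Pool.Agent.H529R2.MQ.POLY
import Pool.Agent.H529R2.MQ.COR
import Pool.Agent.H529R2.MQ.MAIN
import Pool.Agent.H529R2.MQ.CPL

/-!
# Minimum formula size slightly above the number of variables: assembly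
-/

namespace Pool.Agent.H529R2.MQ

theorem main : S_MAIN :=
  t_MAIN t_POLY (t_COR t_ASG t_NF t_ESS (t_ESSL t_ASG) t_CNT t_LEN t_RUN t_PAD (t_SND t_ASG)
    (t_CPL t_ASG) (t_PW t_ASG))

end Pool.Agent.H529R2.MQ
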